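import Mathlib

/-! Project LYD: heights in `R[X]`. -/

set_option autoImplicit false

open Polynomial

namespace LYD

universe u

/-- the ideal `(p, X)` of `R[X]` -/
noncomputable def pX {R : Type u} [CommRing R] (p : Ideal R) : Ideal R[X] :=
  p.comap (constantCoeff : R[X] →+* R)

instance {R : Type u} [CommRing R] (p : Ideal R) [p.IsPrime] : (pX p).IsPrime := by
  unfold pX
  infer_instance

theorem mem_pX {R : Type u} [CommRing R] (p : Ideal R) (f : R[X]) : f ∈ pX p ↔ f.coeff 0 ∈ p := by
  unfold pX
  rw [Ideal.mem_comap]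
  rfl

theorem PolyDim.map_mk {R : Type u} [CommRing R] (p : Ideal R) :
    (pX p).map (Ideal.Quotient.mk (p.map (algebraMap R R[X]))) =
      Ideal.span {Ideal.Quotient.mk (p.map (algebraMap R R[X])) X} := by
  apply le_antisymm
  · rw [Ideal.map_le_iff_le_comap]
    intro f hf
    rw [Ideal.mem_comap, ← Polynomial.X_mul_divX_add f, map_add, map_mul]
    refine Ideal.add_mem _ (Ideal.mul_mem_right _ _ (Ideal.mem_span_singleton_self _)) ?_
    have h0 : C (f.coeff 0) ∈ p.map (algebraMap R R[X]) :=
      Ideal.mem_map_of_mem (algebraMap R R[X]) ((mem_pX p f).1 hf)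
    rw [Ideal.Quotient.eq_zero_iff_mem.2 h0]
    exact Ideal.zero_mem _
  · rw [Ideal.span_singleton_le_iff_mem]
    apply Ideal.mem_map_of_mem
    rw [mem_pX]
    simp

/-- `height (p, X) = height p + 1`. Proof: `Ideal.height_eq_height_add_of_liesOver_of_hasGoingDown`
(`R[X]` is flat over `R`): `height (p,X) = height p + height ((p,X)/p R[X])`, and the latter is a
nonzero principal prime ideal of the domain `(R/p)[X]` (`Ideal.polynomialQuotientEquivQuotientPolynomial`;
height `≥ 1` since it is nonzero, `≤ 1` by Krull). Compare the proof of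
`Polynomial.height_eq_height_add_one` in Mathlib/RingTheory/KrullDimension/Polynomial.lean. -/
theorem height_pX {R : Type u} [CommRing R] [IsNoetherianRing R] (p : Ideal R) [p.IsPrime] :
    (pX p).height = p.height + 1 := by
  have hlo : (pX p).LiesOver p := by
    refine ⟨?_⟩
    ext x
    rw [Ideal.under_def, Ideal.mem_comap, mem_pX]
    simp
  rw [Ideal.height_eq_height_add_of_liesOver_of_hasGoingDown p (pX p)]
  congr 1
  have hpr : (p.map (algebraMap R R[X])).IsPrime := Ideal.isPrime_map_C_of_isPrime
  have hXne : Ideal.Quotient.mk (p.map (algebraMap R R[X])) X ≠ 0 := by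
    intro h
    rw [Ideal.Quotient.eq_zero_iff_mem] at h
    have h1 := (Ideal.mem_map_C_iff (I := p)).1 h 1
    rw [coeff_X_one] at h1
    exact (Ideal.IsPrime.ne_top inferInstance) ((Ideal.eq_top_iff_one p).2 h1)
  have hP : ((pX p).map (Ideal.Quotient.mk (p.map (algebraMap R R[X])))).IsPrime := by
    refine Ideal.map_isPrime_of_surjective Ideal.Quotient.mk_surjective ?_
    rw [Ideal.mk_ker, Ideal.map_le_iff_le_comap]
    intro x hx
    rw [Ideal.mem_comap, mem_pX]
    simpa using hx
  rw [PolyDim.map_mk] at hP ⊢
  apply le_antisymm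
  · apply Ideal.height_le_one_of_isPrincipal_of_mem_minimalPrimes
      (Ideal.span {Ideal.Quotient.mk (p.map (algebraMap R R[X])) X})
    rw [Ideal.minimalPrimes_eq_subsingleton_self]
    rfl
  · exact Ideal.one_le_height_span_singleton_of_mem_nonZeroDivisors
      (mem_nonZeroDivisors_of_ne_zero hXne)

attribute [local instance] Polynomial.algebra Polynomial.isLocalization in
theorem PolyDim.height_le_one_aux {R : Type u} [CommRing R] [IsDomain R] (P : Ideal R[X]) [P.IsPrime]
    (h : P.comap (C : R →+* R[X]) = ⊥) : P.height ≤ 1 := by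
  have hdis : Disjoint (((nonZeroDivisors R).map C : Submonoid R[X]) : Set R[X]) (P : Set R[X]) := by
    rw [Set.disjoint_left]
    rintro a ⟨b, hb, rfl⟩ ha
    have hb0 : b ∈ P.comap (C : R →+* R[X]) := ha
    rw [h, Ideal.mem_bot] at hb0
    exact nonZeroDivisors.ne_zero hb hb0
  rw [← IsLocalization.height_map_of_disjoint (S := (FractionRing R)[X])
    ((nonZeroDivisors R).map C) P hdis]
  have hpr : (P.map (algebraMap R[X] (FractionRing R)[X])).IsPrime :=
    IsLocalization.isPrime_of_isPrime_disjoint ((nonZeroDivisors R).map C) _ P ‹_› hdis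
  apply Ideal.height_le_one_of_isPrincipal_of_mem_minimalPrimes
    (P.map (algebraMap R[X] (FractionRing R)[X]))
  rw [Ideal.minimalPrimes_eq_subsingleton_self]
  rfl

/-- A prime ideal of `R[X]` (`R` a domain) which contracts to `0` has height at most one (it is
disjoint from the nonzero constants; localize there: `Frac(R)[X]` is a principal ideal domain;
`IsLocalization.height_map_of_disjoint`, `Polynomial.isLocalization`). -/
theorem height_le_one {R : Type u} [CommRing R] [IsDomain R] (P : Ideal R[X]) [P.IsPrime]
    (h : P.comap (C : R →+* R[X]) = ⊥) : P.height ≤ 1 :=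
  PolyDim.height_le_one_aux P h

end LYD
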