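import Pool.Agent.LYD.RegDom
import Pool.Agent.LYD.PolyDim

/-! Project LYD: the dimension of a simple etale extension. -/

set_option autoImplicit false

open Polynomial IsLocalRing

namespace LYD

universe u

/-- if the maximal ideal of `R_p` is generated by the `s i`, every `r ∈ p` has a multiple `r c`,
`c ∉ p`, in the ideal of the `s i` -/
theorem EtDim.exists_mul {R : Type u} [CommRing R] [IsDomain R] (p : Ideal R) [p.IsPrime] {n : ℕ}
    (s : Fin n → R)
    (hs : Ideal.span (Set.range fun i => algebraMap R (Localization.AtPrime p) (s i)) =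
      maximalIdeal (Localization.AtPrime p)) (r : R) (hr : r ∈ p) :
    ∃ c : R, c ∉ p ∧ r * c ∈ Ideal.span (Set.range s) := by
  have h1 : algebraMap R (Localization.AtPrime p) r ∈ maximalIdeal (Localization.AtPrime p) :=
    (IsLocalization.AtPrime.to_map_mem_maximal_iff (Localization.AtPrime p) p r).2 hr
  have h2 : Ideal.span (Set.range fun i => algebraMap R (Localization.AtPrime p) (s i)) =
      (Ideal.span (Set.range s)).map (algebraMap R (Localization.AtPrime p)) := by
    rw [Ideal.map_span, ← Set.range_comp]
    rfl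
  rw [← hs, h2, IsLocalization.mem_map_algebraMap_iff p.primeCompl] at h1
  obtain ⟨⟨a, c⟩, hac⟩ := h1
  refine ⟨c, c.2, ?_⟩
  rw [← map_mul] at hac
  have h3 := IsLocalization.injective (Localization.AtPrime p)
    p.primeCompl_le_nonZeroDivisors hac
  rw [h3]
  exact a.2

/-- the maximal ideal of `T = R[X]_(p, X)` modulo `g` -/
theorem EtDim.max_le {R : Type u} [CommRing R] [IsDomain R] (p : Ideal R) [p.IsPrime]
    (g : R[X]) (hg0 : g.coeff 0 ∈ p) (hg1 : g.coeff 1 ∉ p) {n : ℕ} (s : Fin n → R)
    (hs : Ideal.span (Set.range fun i => algebraMap R (Localization.AtPrime p) (s i)) =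
      maximalIdeal (Localization.AtPrime p)) (J : Ideal (Localization.AtPrime (pX p)))
    (hgJ : algebraMap R[X] (Localization.AtPrime (pX p)) g ∈ J)
    (hsJ : ∀ i, algebraMap R[X] (Localization.AtPrime (pX p)) (C (s i)) ∈ J) :
    maximalIdeal (Localization.AtPrime (pX p)) ≤ J := by
  have hu : ∀ f : R[X], f.coeff 0 ∉ p →
      IsUnit (algebraMap R[X] (Localization.AtPrime (pX p)) f) := by
    intro f hf
    exact IsLocalization.map_units (Localization.AtPrime (pX p))
      (⟨f, fun h => hf ((mem_pX p f).1 h)⟩ : (pX p).primeCompl)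
  have hsp : ∀ a ∈ Ideal.span (Set.range s),
      algebraMap R[X] (Localization.AtPrime (pX p)) (C a) ∈ J := by
    have h1 : Ideal.span (Set.range s) ≤
        J.comap ((algebraMap R[X] (Localization.AtPrime (pX p))).comp C) := by
      rw [Ideal.span_le]
      rintro _ ⟨i, rfl⟩
      exact hsJ i
    exact fun a ha => h1 ha
  have hC : ∀ r ∈ p, algebraMap R[X] (Localization.AtPrime (pX p)) (C r) ∈ J := by
    intro r hr
    obtain ⟨c, hc, hrc⟩ := EtDim.exists_mul p s hs r hr
    have h1 := hsp _ hrc
    rw [C_mul, map_mul] at h1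
    exact (J.mul_unit_mem_iff_mem (hu (C c) (by rwa [coeff_C_zero]))).1 h1
  have hX : algebraMap R[X] (Localization.AtPrime (pX p)) X ∈ J := by
    have h1 : algebraMap R[X] (Localization.AtPrime (pX p)) (X * g.divX) ∈ J := by
      have h2 : X * g.divX = g - C (g.coeff 0) := by
        rw [eq_sub_iff_add_eq]
        exact X_mul_divX_add g
      rw [h2, map_sub]
      exact J.sub_mem hgJ (hC _ hg0)
    rw [map_mul] at h1
    exact (J.mul_unit_mem_iff_mem (hu g.divX (by rwa [coeff_divX]))).1 h1
  rw [← Localization.AtPrime.map_eq_maximalIdeal, Ideal.map_le_iff_le_comap]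
  intro f hf
  rw [Ideal.mem_comap, ← X_mul_divX_add f, map_add, map_mul]
  exact J.add_mem (J.mul_mem_right _ hX) (hC _ ((mem_pX p f).1 hf))

theorem EtDim.cancel (d : WithBot ℕ∞) (n : ℕ) (h : d + 1 = (n : WithBot ℕ∞) + 1) :
    d = (n : WithBot ℕ∞) := by
  induction d with
  | bot =>
    rw [WithBot.bot_add] at h
    exact absurd h.symm (by exact_mod_cast WithBot.coe_ne_bot (a := ((n + 1 : ℕ) : ℕ∞)))
  | coe e =>
    have h1 : e + 1 = (n : ℕ∞) + 1 := by exact_mod_cast h
    have h2 : e = (n : ℕ∞) := by
      exact ENat.add_left_injective_of_ne_top ENat.one_ne_top h1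
    rw [h2]
    rfl

/-- Let `R ⊆ S = R[w]` be domains, `q` a prime of `S` over `p` containing `w`, `g(w) = 0` with
`g(0) ∈ p`, `g'(0) ∉ p`. If the maximal ideal of `R_p` is generated by `height p` elements, then
`height p ≤ height q`.
Proof: `T = R[X]_(pX p)` is a noetherian local domain of dimension `n + 1` (`height_pX`), so `T/(g)`
has dimension `n` (`ringKrullDim_quotient_span_singleton_succ_eq_ringKrullDim_of_mem_nonZeroDivisors`)
and its maximal ideal is generated by the `n` elements `s` (modulo `g` one has
`X (g_1 + g_2 X + …) = - g_0 ∈ p T`, and `g_1 + …` is a unit of `T`), so it is regular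
(`IsRegularLocalRing.of_spanFinrank_maximalIdeal_le`) and a domain (`reg_domain`): `(g) T` is prime.
The kernel `P` of `φ : R[X] → S` is a prime contained in `pX p` with `P ∩ R = 0`, so
`height P ≤ 1` (`height_le_one`), and `0 ≠ (g) T ⊆ P T`; hence `(g) T = P T`. So
`S_q = T/P T = T/(g)` has dimension `n`. -/
theorem et_dim {R S : Type u} [CommRing R] [IsDomain R] [IsNoetherianRing R] [CommRing S]
    [IsDomain S] (φ : R[X] →+* S) (hφ : Function.Surjective φ)
    (hinj : ∀ a : R, φ (C a) = 0 → a = 0) (p : Ideal R) [p.IsPrime] (q : Ideal S) [q.IsPrime]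
    (hq : ∀ f : R[X], φ f ∈ q ↔ f.coeff 0 ∈ p) (g : R[X]) (hg : φ g = 0) (hg0 : g.coeff 0 ∈ p)
    (hg1 : g.coeff 1 ∉ p) {n : ℕ} (hn : p.height = n) (s : Fin n → R)
    (hs : Ideal.span (Set.range fun i => algebraMap R (Localization.AtPrime p) (s i)) =
      maximalIdeal (Localization.AtPrime p)) : (n : ℕ∞) ≤ q.height := by
  have hgne : g ≠ 0 := by
    rintro rfl
    exact hg1 (by rw [coeff_zero]; exact p.zero_mem)
  have hnoe : IsNoetherianRing (Localization.AtPrime (pX p)) :=
    IsLocalization.isNoetherianRing (pX p).primeCompl _ inferInstance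
  have hTdim : ringKrullDim (Localization.AtPrime (pX p)) = ((n + 1 : ℕ) : WithBot ℕ∞) := by
    rw [IsLocalization.AtPrime.ringKrullDim_eq_height (pX p) (Localization.AtPrime (pX p)),
      height_pX, hn]
    rfl
  have hinjT : Function.Injective (algebraMap R[X] (Localization.AtPrime (pX p))) :=
    IsLocalization.injective (Localization.AtPrime (pX p)) (pX p).primeCompl_le_nonZeroDivisors
  have hgT0 : algebraMap R[X] (Localization.AtPrime (pX p)) g ≠ 0 := by
    intro h
    exact hgne (hinjT (by rw [h, map_zero]))
  have hgTm : algebraMap R[X] (Localization.AtPrime (pX p)) g ∈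
      maximalIdeal (Localization.AtPrime (pX p)) :=
    (IsLocalization.AtPrime.to_map_mem_maximal_iff (Localization.AtPrime (pX p)) (pX p) g).2
      ((mem_pX p g).2 hg0)
  set gT := algebraMap R[X] (Localization.AtPrime (pX p)) g with hgT
  have hAdim : ringKrullDim (Localization.AtPrime (pX p) ⧸ Ideal.span {gT}) = (n : WithBot ℕ∞) := by
    have h1 := ringKrullDim_quotient_span_singleton_succ_eq_ringKrullDim_of_mem_nonZeroDivisors
      (mem_nonZeroDivisors_of_ne_zero hgT0) hgTm
    rw [hTdim, Nat.cast_add, Nat.cast_one] at h1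
    have h2 : ringKrullDim (Localization.AtPrime (pX p) ⧸ Ideal.span {gT}) + 1 =
      (n : WithBot ℕ∞) + 1 := h1
    exact EtDim.cancel _ _ h2
  have hAnt : Nontrivial (Localization.AtPrime (pX p) ⧸ Ideal.span {gT}) := by
    rw [Ideal.Quotient.nontrivial_iff, Ne, Ideal.span_singleton_eq_top]
    exact (mem_maximalIdeal _).1 hgTm
  have hAloc : IsLocalRing (Localization.AtPrime (pX p) ⧸ Ideal.span {gT}) :=
    IsLocalRing.of_surjective' (Ideal.Quotient.mk _) Ideal.Quotient.mk_surjective
  have hAreg : IsRegularLocalRing (Localization.AtPrime (pX p) ⧸ Ideal.span {gT}) := by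
    apply IsRegularLocalRing.of_spanFinrank_maximalIdeal_le
    rw [hAdim]
    have h1 : maximalIdeal (Localization.AtPrime (pX p) ⧸ Ideal.span {gT}) =
        Ideal.span (Set.range fun i => Ideal.Quotient.mk (Ideal.span {gT})
          (algebraMap R[X] (Localization.AtPrime (pX p)) (C (s i)))) := by
      apply le_antisymm
      · intro x hx
        obtain ⟨y, rfl⟩ := Ideal.Quotient.mk_surjective x
        have hy : y ∈ maximalIdeal (Localization.AtPrime (pX p)) := by
          rw [mem_maximalIdeal] at hx ⊢
          intro hu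
          exact hx (hu.map _)
        have h5 := EtDim.max_le p g hg0 hg1 s hs
          (Ideal.comap (Ideal.Quotient.mk (Ideal.span {gT}))
            (Ideal.span (Set.range fun i => Ideal.Quotient.mk (Ideal.span {gT})
              (algebraMap R[X] (Localization.AtPrime (pX p)) (C (s i))))))
          (by
            rw [Ideal.mem_comap, ← hgT,
              Ideal.Quotient.eq_zero_iff_mem.2 (Ideal.mem_span_singleton_self gT)]
            exact Ideal.zero_mem _)
          (fun i => Ideal.subset_span ⟨i, rfl⟩) hy
        exact h5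
      · rw [Ideal.span_le]
        rintro _ ⟨i, rfl⟩
        have h5 : algebraMap R (Localization.AtPrime p) (s i) ∈
            maximalIdeal (Localization.AtPrime p) := by
          rw [← hs]
          exact Ideal.subset_span ⟨i, rfl⟩
        have h6 : s i ∈ p :=
          (IsLocalization.AtPrime.to_map_mem_maximal_iff (Localization.AtPrime p) p (s i)).1 h5
        have h7 : algebraMap R[X] (Localization.AtPrime (pX p)) (C (s i)) ∈
            maximalIdeal (Localization.AtPrime (pX p)) :=
          (IsLocalization.AtPrime.to_map_mem_maximal_iff (Localization.AtPrime (pX p)) (pX p)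
            (C (s i))).2 ((mem_pX p _).2 (by rwa [coeff_C_zero]))
        have h8 : IsLocalHom (Ideal.Quotient.mk (Ideal.span {gT})) :=
          IsLocalHom.of_surjective _ Ideal.Quotient.mk_surjective
        rw [mem_maximalIdeal] at h7
        exact (mem_maximalIdeal _).2 fun hu => h7 (h8.map_nonunit _ hu)
    rw [h1]
    have h2 := Submodule.spanFinrank_span_le_ncard_of_finite
      (R := Localization.AtPrime (pX p) ⧸ Ideal.span {gT})
      (Set.finite_range fun i => Ideal.Quotient.mk (Ideal.span {gT})
          (algebraMap R[X] (Localization.AtPrime (pX p)) (C (s i))))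
    have h3 : (Set.range fun i => Ideal.Quotient.mk (Ideal.span {gT})
          (algebraMap R[X] (Localization.AtPrime (pX p)) (C (s i)))).ncard ≤ n := by
      rw [← Set.image_univ]
      refine (Set.ncard_image_le Set.finite_univ).trans ?_
      rw [Set.ncard_univ, Nat.card_fin]
    exact_mod_cast h2.trans h3
  have hAdom := reg_domain (Localization.AtPrime (pX p) ⧸ Ideal.span {gT})
  have hgprime : (Ideal.span {gT}).IsPrime := (Ideal.Quotient.isDomain_iff_prime _).1 hAdom
  have hcom : pX p = q.comap φ := by
    ext f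
    rw [mem_pX, Ideal.mem_comap, hq]
  have hψ : Function.Surjective (Localization.localRingHom (pX p) q φ hcom) := by
    intro t
    obtain ⟨a, ⟨b, hb⟩, rfl⟩ := IsLocalization.exists_mk'_eq q.primeCompl t
    obtain ⟨f, rfl⟩ := hφ a
    obtain ⟨h, rfl⟩ := hφ b
    have hh : h ∈ (pX p).primeCompl := fun h1 => hb ((hq h).2 ((mem_pX p h).1 h1))
    exact ⟨IsLocalization.mk' _ f (⟨h, hh⟩ : (pX p).primeCompl),
      Localization.localRingHom_mk' (pX p) q φ hcom f ⟨h, hh⟩⟩
  have hinjS : Function.Injective (algebraMap S (Localization.AtPrime q)) :=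
    IsLocalization.injective (Localization.AtPrime q) q.primeCompl_le_nonZeroDivisors
  have hkp : (RingHom.ker (Localization.localRingHom (pX p) q φ hcom)).IsPrime :=
    RingHom.ker_isPrime _
  have hunder : (RingHom.ker (Localization.localRingHom (pX p) q φ hcom)).comap
      (algebraMap R[X] (Localization.AtPrime (pX p))) = RingHom.ker φ := by
    ext f
    rw [Ideal.mem_comap, RingHom.mem_ker, Localization.localRingHom_to_map, RingHom.mem_ker]
    constructor
    · intro h
      exact hinjS (by rw [h, map_zero])
    · intro h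
      rw [h, map_zero]
  have hkh : (RingHom.ker (Localization.localRingHom (pX p) q φ hcom)).height ≤ 1 := by
    rw [← IsLocalization.height_under (pX p).primeCompl, Ideal.under_def, hunder]
    have : (RingHom.ker φ).IsPrime := RingHom.ker_isPrime _
    apply height_le_one
    rw [eq_bot_iff]
    intro a ha
    exact hinj a ha
  have hle : Ideal.span {gT} ≤ RingHom.ker (Localization.localRingHom (pX p) q φ hcom) := by
    rw [Ideal.span_singleton_le_iff_mem, RingHom.mem_ker, hgT, Localization.localRingHom_to_map,
      hg, map_zero]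
  have heq : Ideal.span {gT} = RingHom.ker (Localization.localRingHom (pX p) q φ hcom) :=
    Ideal.eq_of_le_of_height_le _ hle (hkh.trans
      (Ideal.one_le_height_span_singleton_of_mem_nonZeroDivisors
        (mem_nonZeroDivisors_of_ne_zero hgT0)))
  have hfin : ringKrullDim (Localization.AtPrime q) = (n : WithBot ℕ∞) := by
    rw [← hAdim]
    exact (ringKrullDim_eq_of_ringEquiv ((Ideal.quotEquivOfEq heq).trans
      (RingHom.quotientKerEquivOfSurjective hψ))).symm
  rw [IsLocalization.AtPrime.ringKrullDim_eq_height q (Localization.AtPrime q)] at hfin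
  exact_mod_cast hfin.ge

end LYD
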