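import Pool.Agent.LYD.Lft
import Pool.Agent.LYD.EtDim
import Pool.Agent.helper90.LY.OcReg

/-! Project LYD: the chart `A[w]`, `w` a simple root. -/

set_option autoImplicit false

open IsLocalRing Polynomial

namespace LYD

universe u

variable {k K M : Type u} [Field k] [Field K] [Field M] [Algebra k K] [Algebra k M] [Algebra K M]
  [IsScalarTower k K M]

theorem ChartA_oc {W : ValuationSubring K} {W₁ : ValuationSubring M}
    (hWW : ∀ x : K, algebraMap K M x ∈ W₁ ↔ x ∈ W) (A : Subalgebra k K) (w : M) {x : K}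
    (hx : x ∈ LY.oc W A) : algebraMap K M x ∈ LY.oc W₁ (LY.lft w A) := by
  obtain ⟨b, hb, d, hd, h1, h2⟩ := hx
  refine ⟨algebraMap K M b, LY.mem_lft w A hb, algebraMap K M d, LY.mem_lft w A hd,
    (val_eq_one hWW d).2 h1, ?_⟩
  rw [← map_mul, h2]

/-- `x` is a combination of the `t i` over the local ring -/
def ChartA_comb (V : ValuationSubring M) (B : Subalgebra k M) {n : ℕ} (t : Fin n → M) (x : M) : Prop :=
  ∃ c : Fin n → M, (∀ i, c i ∈ LY.oc V B) ∧ x = ∑ i, c i * t i

theorem ChartA_comb_mul {V : ValuationSubring M} {B : Subalgebra k M} {n : ℕ} {t : Fin n → M} {x y : M}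
    (hx : ChartA_comb V B t x) (hy : y ∈ LY.oc V B) : ChartA_comb V B t (x * y) := by
  obtain ⟨c, hc, rfl⟩ := hx
  refine ⟨fun i => c i * y, fun i => mul_mem (hc i) hy, ?_⟩
  rw [Finset.sum_mul]
  exact Finset.sum_congr rfl fun i _ => by ring

theorem ChartA_comb_add {V : ValuationSubring M} {B : Subalgebra k M} {n : ℕ} {t : Fin n → M} {x y : M}
    (hx : ChartA_comb V B t x) (hy : ChartA_comb V B t y) : ChartA_comb V B t (x + y) := by
  obtain ⟨c, hc, rfl⟩ := hx
  obtain ⟨e, he, rfl⟩ := hy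
  refine ⟨fun i => c i + e i, fun i => add_mem (hc i) (he i), ?_⟩
  rw [← Finset.sum_add_distrib]
  exact Finset.sum_congr rfl fun i _ => by ring

theorem ChartA_eval (A : Subalgebra k K) (w : M) (f : A[X]) :
    f.eval₂ ((algebraMap K M).comp (A.val : A →+* K)) w =
      algebraMap K M (f.coeff 0 : K) +
        w * (divX f).eval₂ ((algebraMap K M).comp (A.val : A →+* K)) w := by
  conv_lhs => rw [← divX_mul_X_add f]
  rw [eval₂_add, eval₂_mul, eval₂_X, eval₂_C]
  change _ + algebraMap K M (f.coeff 0 : K) = _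
  ring

theorem ChartA_mul_lt {V : ValuationSubring M} {w y : M} (hw : V.valuation w < 1)
    (hy : y ∈ V) : V.valuation (w * y) < 1 := by
  rw [map_mul]
  calc V.valuation w * V.valuation y ≤ V.valuation w * 1 :=
        mul_le_mul_right ((V.valuation_le_one_iff y).2 hy) _
    _ = V.valuation w := mul_one _
    _ < 1 := hw

/-- The chart `A[w]` for a simple root `w` of positive value of a polynomial `g` over `A`:
parameters `s`. Proof: `w (g_1 + g_2 w + …) = - g_0`, the second factor is a unit of the local ring of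
`A[w]` and `g_0 = ∑ c_i s_i`, so `w` and all `y = a + w y'` of positive value are combinations of the
`s_i` (`lft_split`, `LY.pg_iff`, `LY.PG`); the dimension is at least `n` by `et_dim`
(`R = A`, `S = A[w]`, `φ f = f(w)`, `mem_lft_iff`); regular by `LY.reg_of_pg`. -/
theorem chart_a (W : ValuationSubring K) (W₁ : ValuationSubring M)
    (hWW : ∀ x : K, algebraMap K M x ∈ W₁ ↔ x ∈ W) (A : Subalgebra k K) (hA : ∀ a ∈ A, a ∈ W)
    (hfg : A.FG) (hfr : IsFractionRing A K) {n : ℕ} (s : Fin n → A)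
    (hdim : ringKrullDim (Localization.AtPrime (LU.center W A hA)) = n)
    (hs : Ideal.span (Set.range fun i =>
      algebraMap A (Localization.AtPrime (LU.center W A hA)) (s i)) =
        maximalIdeal (Localization.AtPrime (LU.center W A hA)))
    (w : M) (hw : W₁.valuation w < 1) (g : K[X]) (hg : ∀ i, g.coeff i ∈ A)
    (hg0 : W.valuation (g.coeff 0) < 1) (hg1 : W.valuation (g.coeff 1) = 1)
    (hgw : aeval w g = 0) (hgen : IntermediateField.adjoin K {w} = ⊤) :
    ∃ (hA₁ : ∀ a ∈ LY.lft w A, a ∈ W₁) (s' : Fin n → LY.lft w A),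
      (∀ i : Fin n, (s' i : M) = algebraMap K M (s i)) ∧
      (LY.lft w A).FG ∧ IsFractionRing (LY.lft w A) M ∧
      IsRegularLocalRing (Localization.AtPrime (LU.center W₁ (LY.lft w A) hA₁)) ∧
      ringKrullDim (Localization.AtPrime (LU.center W₁ (LY.lft w A) hA₁)) = n ∧
      Ideal.span (Set.range fun i =>
        algebraMap (LY.lft w A) (Localization.AtPrime (LU.center W₁ (LY.lft w A) hA₁)) (s' i)) =
          maximalIdeal (Localization.AtPrime (LU.center W₁ (LY.lft w A) hA₁)) := by
  have hA₁ := lft_mem hWW A hA w hw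
  have hev : ∀ f : A[X], f.eval₂ ((algebraMap K M).comp (A.val : A →+* K)) w ∈ LY.lft w A :=
    fun f => (mem_lft_iff A w _).2 ⟨f, rfl⟩
  -- the polynomial over `A`
  obtain ⟨G, hG⟩ : ∃ G : A[X], G.map (A.val : A →+* K) = g := by
    rw [← mem_lifts, lifts_iff_coeff_lifts]
    exact fun i => ⟨⟨g.coeff i, hg i⟩, rfl⟩
  have hGc : ∀ i, ((G.coeff i : A) : K) = g.coeff i := by
    intro i
    rw [← hG, coeff_map]
    rfl
  have hG0 : G.eval₂ ((algebraMap K M).comp (A.val : A →+* K)) w = 0 := by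
    rw [← eval₂_map, hG]
    exact hgw
  -- parameters of `A`
  obtain ⟨hp1, hp2, hp3⟩ := (LY.pg_iff W A hA s).1 hs
  have hA0 : ∀ a ∈ A, W.valuation a < 1 →
      ChartA_comb W₁ (LY.lft w A) (fun i => algebraMap K M (s i : K)) (algebraMap K M a) := by
    intro a ha ha1
    obtain ⟨c, hc, h1⟩ := hp3 a (LY.le_oc W A ha) ha1
    refine ⟨fun i => algebraMap K M (c i), fun i => ChartA_oc hWW A w (hc i), ?_⟩
    rw [h1, map_sum]
    exact Finset.sum_congr rfl fun i _ => by rw [map_mul]
  -- the unit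
  set u : M := (divX G).eval₂ ((algebraMap K M).comp (A.val : A →+* K)) w with hu
  have hwu : algebraMap K M (g.coeff 0) + w * u = 0 := by
    have h1 := ChartA_eval A w G
    rw [hG0, hGc] at h1
    exact h1.symm
  have hu1 : W₁.valuation u = 1 := by
    have h1 := ChartA_eval A w (divX G)
    rw [← hu, coeff_divX, zero_add, hGc] at h1
    have h2 : W₁.valuation (w * (divX (divX G)).eval₂ ((algebraMap K M).comp (A.val : A →+* K)) w) <
        W₁.valuation (algebraMap K M (g.coeff 1)) := by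
      rw [(val_eq_one hWW _).2 hg1]
      exact ChartA_mul_lt hw (hA₁ _ (hev _))
    rw [h1, Valuation.map_add_eq_of_lt_left _ h2]
    exact (val_eq_one hWW _).2 hg1
  have hu0 : u ≠ 0 := by
    intro h0
    rw [h0, map_zero] at hu1
    exact zero_ne_one hu1
  have hwc : ChartA_comb W₁ (LY.lft w A) (fun i => algebraMap K M (s i : K)) w := by
    have h1 : w = algebraMap K M (g.coeff 0) * (-u⁻¹) := by
      have h2 : w * u = - algebraMap K M (g.coeff 0) := by
        rw [eq_neg_iff_add_eq_zero, add_comm]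
        exact hwu
      have h3 : w = w * u * u⁻¹ := by rw [mul_inv_cancel_right₀ hu0]
      rw [h3, h2]
      ring
    have h2 := ChartA_comb_mul (hA0 _ (hg 0) hg0)
      (neg_mem (LY.oc_inv W₁ (LY.le_oc W₁ (LY.lft w A) (hev (divX G))) hu1))
    rw [← h1] at h2
    exact h2
  have hlf : ∀ y ∈ LY.lft w A, W₁.valuation y < 1 →
      ChartA_comb W₁ (LY.lft w A) (fun i => algebraMap K M (s i : K)) y := by
    intro y hy hy1
    obtain ⟨a, ha, y', hy', h1⟩ := lft_split A w hy
    have h2 := ChartA_mul_lt hw (hA₁ _ hy')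
    have h3 : W₁.valuation (algebraMap K M a) < 1 := by
      have h4 : algebraMap K M a = y - w * y' := by rw [h1]; ring
      rw [h4]
      exact lt_of_le_of_lt (W₁.valuation.map_sub _ _) (max_lt hy1 h2)
    rw [h1]
    exact ChartA_comb_add (hA0 a ha ((val_lt_one hWW a).1 h3))
      (ChartA_comb_mul hwc (LY.le_oc W₁ _ hy'))
  let s' : Fin n → LY.lft w A := fun i => ⟨algebraMap K M (s i : K), LY.mem_lft w A (s i).2⟩
  have hPG : LY.PG W₁ (LY.lft w A) fun i => (s' i : M) := by
    refine ⟨fun i => LY.le_oc W₁ _ (s' i).2, fun i => (val_lt_one hWW _).2 (hp2 i), ?_⟩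
    rintro y ⟨b, hb, d, hd, h1, h2⟩ hy1
    have hd0 : d ≠ 0 := by
      rintro rfl
      rw [map_zero] at h1
      exact zero_ne_one h1
    have h3 : W₁.valuation b < 1 := by
      rw [← h2, map_mul, h1, mul_one]
      exact hy1
    have h4 := ChartA_comb_mul (hlf b hb h3) (LY.oc_inv W₁ (LY.le_oc W₁ _ hd) h1)
    rw [← h2, mul_inv_cancel_right₀ hd0] at h4
    exact h4
  -- the dimension
  have hfg1 := lft_fg A hfg w
  have : Algebra.FiniteType k A := A.fg_iff_finiteType.1 hfg
  have : IsNoetherianRing A := Algebra.FiniteType.isNoetherianRing k A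
  have hht : (LU.center W A hA).height = n := by
    have h1 := IsLocalization.AtPrime.ringKrullDim_eq_height (LU.center W A hA)
      (Localization.AtPrime (LU.center W A hA))
    rw [hdim] at h1
    exact_mod_cast h1.symm
  let φ : A[X] →+* LY.lft w A :=
    (eval₂RingHom ((algebraMap K M).comp (A.val : A →+* K)) w).codRestrict (LY.lft w A) hev
  have hφ : ∀ f : A[X], ((φ f : LY.lft w A) : M) =
      f.eval₂ ((algebraMap K M).comp (A.val : A →+* K)) w := fun f => rfl
  have hdim1 : (n : ℕ∞) ≤ (LU.center W₁ (LY.lft w A) hA₁).height := by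
    refine et_dim φ ?_ ?_ (LU.center W A hA) (LU.center W₁ (LY.lft w A) hA₁) ?_ G ?_ ?_ ?_ hht s hs
    · rintro ⟨x, hx⟩
      obtain ⟨f, hf⟩ := (mem_lft_iff A w x).1 hx
      exact ⟨f, Subtype.ext ((hφ f).trans hf.symm)⟩
    · intro a ha
      have h1 : ((φ (C a) : LY.lft w A) : M) = 0 := by rw [ha]; rfl
      rw [hφ, eval₂_C] at h1
      have h2 : algebraMap K M (a : K) = 0 := h1
      rw [map_eq_zero] at h2
      exact Subtype.ext h2
    · intro f
      rw [LY.OcReg_mem_center, LY.OcReg_mem_center, hφ, ChartA_eval A w f, ← val_lt_one hWW]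
      have h2 := ChartA_mul_lt hw (hA₁ _ (hev (divX f)))
      constructor
      · intro h3
        have h4 : algebraMap K M (f.coeff 0 : K) = (algebraMap K M (f.coeff 0 : K) +
            w * (divX f).eval₂ ((algebraMap K M).comp (A.val : A →+* K)) w) -
            w * (divX f).eval₂ ((algebraMap K M).comp (A.val : A →+* K)) w := by ring
        rw [h4]
        exact lt_of_le_of_lt (W₁.valuation.map_sub _ _) (max_lt h3 h2)
      · intro h3
        exact lt_of_le_of_lt (W₁.valuation.map_add _ _) (max_lt h3 h2)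
    · exact Subtype.ext (by rw [hφ, hG0]; rfl)
    · rw [LY.OcReg_mem_center, hGc]
      exact hg0
    · rw [LY.OcReg_mem_center, hGc, hg1]
      exact lt_irrefl 1
  have hdim2 : (n : WithBot ℕ∞) ≤
      ringKrullDim (Localization.AtPrime (LU.center W₁ (LY.lft w A) hA₁)) := by
    rw [IsLocalization.AtPrime.ringKrullDim_eq_height (LU.center W₁ (LY.lft w A) hA₁)
      (Localization.AtPrime (LU.center W₁ (LY.lft w A) hA₁))]
    exact_mod_cast hdim1
  obtain ⟨hreg, hdim3⟩ := LY.reg_of_pg W₁ (LY.lft w A) hA₁ hfg1 s' hPG hdim2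
  exact ⟨hA₁, s', fun _ => rfl, hfg1, lft_frac A hfr w hgen, hreg, hdim3,
    (LY.pg_iff W₁ (LY.lft w A) hA₁ s').2 hPG⟩

end LYD
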