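import Pool.Agent.LYD.Lft
import Pool.Agent.LYD.PolyDim
import Pool.Agent.helper90.LY.OcReg

/-! Project LYD: the chart `A[w]`, `w` transcendental. -/

set_option autoImplicit false

open IsLocalRing

namespace LYD

universe u

variable {k K M : Type u} [Field k] [Field K] [Field M] [Algebra k K] [Algebra k M] [Algebra K M]
  [IsScalarTower k K M]

/-- the centre in terms of values -/
theorem ChartT_mem_center {k K : Type*} [Field k] [Field K] [Algebra k K]
    (W : ValuationSubring K) (A : Subalgebra k K) (h : ∀ a ∈ A, a ∈ W)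
    (a : A) : a ∈ LU.center W A h ↔ W.valuation (a : K) < 1 := by
  change LU.toV W A h a ∈ IsLocalRing.maximalIdeal W ↔ _
  rw [W.valuation_lt_one_iff]
  rfl

/-- the isomorphism `A[X] → A[w]` -/
theorem ChartT_equiv (A : Subalgebra k K) (w : M) (hw0 : Transcendental K w) :
    ∃ e : Polynomial A ≃+* LY.lft w A, ∀ f : Polynomial A,
      ((e f : LY.lft w A) : M) = f.eval₂ ((algebraMap K M).comp (A.val : A →+* K)) w := by
  let ψ : Polynomial A →+* LY.lft w A :=
    Polynomial.eval₂RingHom (LY.DescDim.inc w A) ⟨w, LY.self_mem_lft w A⟩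
  have hψ : ∀ f : Polynomial A,
      ((ψ f : LY.lft w A) : M) = f.eval₂ ((algebraMap K M).comp (A.val : A →+* K)) w := by
    intro f
    have h1 := Polynomial.hom_eval₂ f (LY.DescDim.inc w A)
      ((LY.lft w A).val : LY.lft w A →+* M) ⟨w, LY.self_mem_lft w A⟩
    have h2 : ((LY.lft w A).val : LY.lft w A →+* M).comp (LY.DescDim.inc w A) =
        (algebraMap K M).comp (A.val : A →+* K) := rfl
    rw [h2] at h1
    exact h1
  have hinj : Function.Injective ψ := by
    rw [injective_iff_map_eq_zero]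
    intro f hf
    have h1 : f.eval₂ ((algebraMap K M).comp (A.val : A →+* K)) w = 0 := by
      rw [← hψ, hf]
      rfl
    rw [← Polynomial.eval₂_map, ← Polynomial.aeval_def] at h1
    have h2 : f.map (A.val : A →+* K) = 0 := by
      by_contra h3
      exact hw0 ⟨_, h3, h1⟩
    exact (Polynomial.map_eq_zero_iff (f := (A.val : A →+* K)) Subtype.val_injective).1 h2
  have hsurj : Function.Surjective ψ := by
    rintro ⟨x, hx⟩
    obtain ⟨f, hf⟩ := (mem_lft_iff A w x).1 hx
    exact ⟨f, Subtype.ext ((hψ f).trans hf.symm)⟩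
  exact ⟨RingEquiv.ofBijective ψ ⟨hinj, hsurj⟩, hψ⟩

/-- the value of a polynomial in `w` and of its constant coefficient -/
theorem ChartT_val {W : ValuationSubring K} {W₁ : ValuationSubring M}
    (hWW : ∀ x : K, algebraMap K M x ∈ W₁ ↔ x ∈ W) {a : K} {w y : M}
    (hw : W₁.valuation w < 1) (hy : y ∈ W₁) :
    W₁.valuation (algebraMap K M a + w * y) < 1 ↔ W.valuation a < 1 := by
  have h1 : W₁.valuation (w * y) < 1 := by
    rw [map_mul]
    exact mul_lt_one_of_lt_of_le hw ((W₁.valuation_le_one_iff _).2 hy)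
  rw [← val_lt_one hWW]
  constructor
  · intro h
    have h2 := Valuation.map_sub_lt _ h h1
    rwa [add_sub_cancel_right] at h2
  · intro h
    exact Valuation.map_add_lt _ h h1

/-- the dimension of the chart -/
theorem ChartT_dim (W : ValuationSubring K) (W₁ : ValuationSubring M)
    (hWW : ∀ x : K, algebraMap K M x ∈ W₁ ↔ x ∈ W) (A : Subalgebra k K) (hA : ∀ a ∈ A, a ∈ W)
    (hfg : A.FG) (w : M) (hw : W₁.valuation w < 1) (hw0 : Transcendental K w)
    (hA₁ : ∀ a ∈ LY.lft w A, a ∈ W₁) :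
    ringKrullDim (Localization.AtPrime (LU.center W₁ (LY.lft w A) hA₁)) =
      ringKrullDim (Localization.AtPrime (LU.center W A hA)) + 1 := by
  have : Algebra.FiniteType k A := A.fg_iff_finiteType.1 hfg
  have : IsNoetherianRing A := Algebra.FiniteType.isNoetherianRing k A
  obtain ⟨e, he⟩ := ChartT_equiv (k := k) (K := K) A w hw0
  have h1 : (LU.center W₁ (LY.lft w A) hA₁).comap e = pX (LU.center W A hA) := by
    ext f
    rw [Ideal.mem_comap, mem_pX, ChartT_mem_center, ChartT_mem_center, he]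
    have h2 : f = Polynomial.C (f.coeff 0) + Polynomial.X * f.divX := by
      conv_lhs => rw [← Polynomial.divX_mul_X_add f]
      ring
    have h3 : f.divX.eval₂ ((algebraMap K M).comp (A.val : A →+* K)) w ∈ W₁ :=
      hA₁ _ ((mem_lft_iff A w _).2 ⟨f.divX, rfl⟩)
    conv_lhs => rw [h2]
    rw [Polynomial.eval₂_add, Polynomial.eval₂_mul, Polynomial.eval₂_C, Polynomial.eval₂_X]
    exact ChartT_val hWW hw h3
  have h2 := RingEquiv.height_comap e (LU.center W₁ (LY.lft w A) hA₁)
  rw [h1, height_pX] at h2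
  rw [IsLocalization.AtPrime.ringKrullDim_eq_height (LU.center W₁ (LY.lft w A) hA₁),
    IsLocalization.AtPrime.ringKrullDim_eq_height (LU.center W A hA), ← h2]
  rfl

/-- elements of the local ring of `A` lie in the local ring of `A[w]` -/
theorem ChartT_oc {W : ValuationSubring K} {W₁ : ValuationSubring M}
    (hWW : ∀ x : K, algebraMap K M x ∈ W₁ ↔ x ∈ W) (A : Subalgebra k K) (w : M) {c : K}
    (hc : c ∈ LY.oc W A) : algebraMap K M c ∈ LY.oc W₁ (LY.lft w A) := by
  obtain ⟨b, hb, d, hd, h1, h2⟩ := hc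
  exact ⟨algebraMap K M b, LY.mem_lft w A hb, algebraMap K M d, LY.mem_lft w A hd,
    (val_eq_one hWW d).2 h1, by rw [← h2, map_mul]⟩

/-- The chart `A[w]` for `w` transcendental over `K` of positive value: parameters `s, w`.
Proof: `A[w]` is the polynomial ring `A[X]` and its centre is `(p, X)`, of height `n + 1`
(`height_pX`). `LY.PG` (LY/Oc.lean, LY/OcReg.lean): `y ∈ A[w]`, `W₁(y) < 1`: `y = a + w y'`
(`lft_split`), `W(a) < 1`, so `a = ∑ c_i s_i` with `c_i` in the local ring of `A`
(`LY.pg_iff`). Regular by `LY.reg_of_pg`. -/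
theorem chart_t (W : ValuationSubring K) (W₁ : ValuationSubring M)
    (hWW : ∀ x : K, algebraMap K M x ∈ W₁ ↔ x ∈ W) (A : Subalgebra k K) (hA : ∀ a ∈ A, a ∈ W)
    (hfg : A.FG) (hfr : IsFractionRing A K) {n : ℕ} (s : Fin n → A)
    (hdim : ringKrullDim (Localization.AtPrime (LU.center W A hA)) = n)
    (hs : Ideal.span (Set.range fun i =>
      algebraMap A (Localization.AtPrime (LU.center W A hA)) (s i)) =
        maximalIdeal (Localization.AtPrime (LU.center W A hA)))
    (w : M) (hw : W₁.valuation w < 1) (hw0 : Transcendental K w)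
    (hgen : IntermediateField.adjoin K {w} = ⊤) :
    ∃ (hA₁ : ∀ a ∈ LY.lft w A, a ∈ W₁) (s' : Fin (n + 1) → LY.lft w A),
      (∀ i : Fin n, (s' i.castSucc : M) = algebraMap K M (s i)) ∧ (s' (Fin.last n) : M) = w ∧
      (LY.lft w A).FG ∧ IsFractionRing (LY.lft w A) M ∧
      IsRegularLocalRing (Localization.AtPrime (LU.center W₁ (LY.lft w A) hA₁)) ∧
      ringKrullDim (Localization.AtPrime (LU.center W₁ (LY.lft w A) hA₁)) = (n + 1 : ℕ) ∧
      Ideal.span (Set.range fun i =>
        algebraMap (LY.lft w A) (Localization.AtPrime (LU.center W₁ (LY.lft w A) hA₁)) (s' i)) =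
          maximalIdeal (Localization.AtPrime (LU.center W₁ (LY.lft w A) hA₁)) := by
  have hA₁ : ∀ a ∈ LY.lft w A, a ∈ W₁ := lft_mem hWW A hA w hw
  let s' : Fin (n + 1) → LY.lft w A :=
    Fin.snoc (α := fun _ => LY.lft w A) (fun i => ⟨algebraMap K M (s i), LY.mem_lft w A (s i).2⟩)
      ⟨w, LY.self_mem_lft w A⟩
  have hs1 : ∀ i : Fin n, (s' i.castSucc : M) = algebraMap K M (s i) := by
    intro i
    simp only [s', Fin.snoc_castSucc]
  have hs2 : (s' (Fin.last n) : M) = w := by
    simp only [s', Fin.snoc_last]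
  obtain ⟨-, hp2, hp3⟩ := (LY.pg_iff W A hA s).1 hs
  have hPG : LY.PG W₁ (LY.lft w A) fun i => (s' i : M) := by
    refine ⟨fun i => LY.le_oc W₁ _ (s' i).2, ?_, ?_⟩
    · intro i
      refine Fin.lastCases ?_ (fun i => ?_) i
      · show W₁.valuation (s' (Fin.last n) : M) < 1
        rw [hs2]
        exact hw
      · show W₁.valuation (s' i.castSucc : M) < 1
        rw [hs1, val_lt_one hWW]
        exact hp2 i
    · rintro y ⟨b, hb, d, hd, hd1, hyd⟩ hy1
      have hb1 : W₁.valuation b < 1 := by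
        rw [← hyd, map_mul, hd1, mul_one]
        exact hy1
      obtain ⟨a, ha, z, hz, hbz⟩ := lft_split A w hb
      have ha1 : W.valuation a < 1 := by
        rw [hbz] at hb1
        exact (ChartT_val hWW hw (hA₁ z hz)).1 hb1
      obtain ⟨c, hc, hac⟩ := hp3 a (LY.le_oc W A ha) ha1
      have hd0 : d ≠ 0 := by
        rintro rfl
        rw [map_zero] at hd1
        exact zero_ne_one hd1
      have hdi : d⁻¹ ∈ LY.oc W₁ (LY.lft w A) := LY.oc_inv W₁ (LY.le_oc W₁ _ hd) hd1
      refine ⟨Fin.snoc (α := fun _ => M) (fun i => d⁻¹ * algebraMap K M (c i)) (d⁻¹ * z),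
        fun i => ?_, ?_⟩
      · refine Fin.lastCases ?_ (fun i => ?_) i
        · rw [Fin.snoc_last]
          exact mul_mem hdi (LY.le_oc W₁ _ hz)
        · rw [Fin.snoc_castSucc]
          exact mul_mem hdi (ChartT_oc hWW A w (hc i))
      · rw [Fin.sum_univ_castSucc]
        simp only [Fin.snoc_castSucc, Fin.snoc_last]
        have h1 : y = d⁻¹ * b := by
          rw [← hyd]
          field_simp
        have h2 : algebraMap K M a = ∑ i, algebraMap K M (c i) * (s' i.castSucc : M) := by
          rw [hac, map_sum]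
          refine Finset.sum_congr rfl fun i _ => ?_
          rw [map_mul, hs1]
        rw [h1, hbz, h2, hs2, mul_add, Finset.mul_sum]
        congr 1
        · refine Finset.sum_congr rfl fun i _ => ?_
          ring
        · ring
  have hfg₁ := lft_fg A hfg w
  have hdim₁ : ((n + 1 : ℕ) : WithBot ℕ∞) ≤
      ringKrullDim (Localization.AtPrime (LU.center W₁ (LY.lft w A) hA₁)) := by
    rw [ChartT_dim W W₁ hWW A hA hfg w hw hw0 hA₁, hdim]
    push_cast
    exact le_rfl
  obtain ⟨hreg, hdim₂⟩ := LY.reg_of_pg W₁ (LY.lft w A) hA₁ hfg₁ s' hPG hdim₁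
  exact ⟨hA₁, s', hs1, hs2, hfg₁, lft_frac A hfr w hgen, hreg, hdim₂,
    (LY.pg_iff W₁ (LY.lft w A) hA₁ s').2 hPG⟩

end LYD
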