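import Pool.Agent.LYD.Defs

/-! Project LYD: the choice of the approximation. -/

set_option autoImplicit false

open Polynomial

namespace LYD

universe u

variable {K M : Type u} [Field K] [Field M] [Algebra K M]

theorem Choose_nat {L : Type u} [Field L] (W : ValuationSubring L) (n : ℕ) :
    W.valuation (n : L) ≤ 1 :=
  (W.valuation_le_one_iff _).2 (natCast_mem W n)

/-- a Taylor coefficient times `h` is small if all coefficients times `h` are small -/
theorem Choose_coeff {L : Type u} [Field L] (W : ValuationSubring L) (g : L[X]) (d h : L)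
    (hd : W.valuation d ≤ 1) {B : W.ValueGroup} (hB : B ≠ 0)
    (hg : ∀ j, W.valuation (g.coeff j) * W.valuation h < B) (i : ℕ) :
    W.valuation ((taylor d g).coeff i * h) < B := by
  rw [taylor_coeff, hasseDeriv_apply, Polynomial.sum_def, eval_finsetSum, Finset.sum_mul]
  refine W.valuation.map_sum_lt hB fun j _ => ?_
  rw [eval_monomial, map_mul, map_mul, map_mul, map_pow]
  have h1 : W.valuation ((j.choose i : ℕ) : L) ≤ 1 := Choose_nat W _
  have h2 : W.valuation d ^ (j - i) ≤ 1 := pow_le_one' hd _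
  calc W.valuation ((j.choose i : ℕ) : L) * W.valuation (g.coeff j) * W.valuation d ^ (j - i) *
        W.valuation h
      ≤ 1 * W.valuation (g.coeff j) * 1 * W.valuation h := by gcongr
    _ = W.valuation (g.coeff j) * W.valuation h := by rw [one_mul, mul_one]
    _ < B := hg j

/-- the constant coefficient dominates -/
theorem Choose_eval {L : Type u} [Field L] (W : ValuationSubring L) (g : L[X]) (d h : L)
    (hd : W.valuation d ≤ 1) (hdh : W.valuation d ≤ W.valuation h) (h0 : g.coeff 0 ≠ 0)
    (hg : ∀ j, W.valuation (g.coeff j) * W.valuation h < W.valuation (g.coeff 0)) :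
    W.valuation (g.eval d) = W.valuation (g.coeff 0) := by
  rw [eval_eq_sum_range, Finset.sum_range_succ', pow_zero, mul_one]
  apply W.valuation.map_add_eq_of_lt_right
  refine W.valuation.map_sum_lt ((Valuation.ne_zero_iff _).2 h0) fun j _ => ?_
  rw [map_mul, map_pow, pow_succ]
  have h2 : W.valuation d ^ j ≤ 1 := pow_le_one' hd _
  calc W.valuation (g.coeff (j + 1)) * (W.valuation d ^ j * W.valuation d)
      ≤ W.valuation (g.coeff (j + 1)) * (1 * W.valuation h) := by gcongr
    _ = W.valuation (g.coeff (j + 1)) * W.valuation h := by rw [one_mul]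
    _ < W.valuation (g.coeff 0) := hg _

/-- an element of minimal value -/
theorem Choose_min (W₁ : ValuationSubring M) (η : M) (S T : Finset K[X])
    (hS : ∀ b ∈ S, aeval η b ≠ 0) :
    ∃ e : M, e ≠ 0 ∧ W₁.valuation e ≤ 1 ∧ ∀ h : M, W₁.valuation h < W₁.valuation e →
      ∀ b ∈ S, ∀ f ∈ T, ∀ j, W₁.valuation ((taylor η (f.map (algebraMap K M))).coeff j) *
        W₁.valuation h < W₁.valuation (aeval η b) := by
  classical
  let J : Finset ℕ := Finset.range ((T.sup fun f => f.natDegree) + 1)
  let E : Finset M := insert 1 (((S ×ˢ T ×ˢ J).image fun x : K[X] × K[X] × ℕ =>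
    aeval η x.1 / (taylor η (x.2.1.map (algebraMap K M))).coeff x.2.2).filter fun y => y ≠ 0)
  have hE : E.Nonempty := Finset.insert_nonempty _ _
  obtain ⟨e, he, hmin⟩ := E.exists_min_image (fun y => W₁.valuation y) hE
  refine ⟨e, ?_, ?_, ?_⟩
  · rcases Finset.mem_insert.1 he with h | h
    · rw [h]
      exact one_ne_zero
    · exact (Finset.mem_filter.1 h).2
  · have h1 := hmin 1 (Finset.mem_insert_self _ _)
    rwa [map_one] at h1
  · intro h hh b hb f hf j
    have hb0 : W₁.valuation (aeval η b) ≠ 0 := (Valuation.ne_zero_iff _).2 (hS b hb)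
    by_cases hc : (taylor η (f.map (algebraMap K M))).coeff j = 0
    · rw [hc, map_zero, zero_mul]
      exact zero_lt_iff.2 hb0
    · have hj : j ∈ J := by
        have h1 : j ≤ (taylor η (f.map (algebraMap K M))).natDegree :=
          le_natDegree_of_ne_zero hc
        rw [natDegree_taylor, natDegree_map] at h1
        have h2 : f.natDegree ≤ T.sup fun f => f.natDegree :=
          Finset.le_sup (f := fun f : K[X] => f.natDegree) hf
        exact Finset.mem_range.2 (by omega)
      have hmem : aeval η b / (taylor η (f.map (algebraMap K M))).coeff j ∈ E := by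
        refine Finset.mem_insert_of_mem (Finset.mem_filter.2 ⟨?_, div_ne_zero (hS b hb) hc⟩)
        exact Finset.mem_image.2 ⟨(b, f, j), Finset.mem_product.2
          ⟨hb, Finset.mem_product.2 ⟨hf, hj⟩⟩, rfl⟩
      have h1 := hh.trans_le (hmin _ hmem)
      have hc0 : 0 < W₁.valuation ((taylor η (f.map (algebraMap K M))).coeff j) :=
        zero_lt_iff.2 ((Valuation.ne_zero_iff _).2 hc)
      rw [map_div₀, lt_div_iff₀ hc0] at h1
      rwa [mul_comm]

/-- The choice of `c` and `h`. Proof: let `e ∈ M` be an element of minimal value in the finite set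
consisting of `1` and all `b(η)/f_j(η)` with `b ∈ S`, `f ∈ T`, `j ≤ deg f`, `f_j(η) ≠ 0`
(`f_j(η) = (taylor η f).coeff j`, Hasse derivatives). Choose `c₀` with `W₁(η - c₀) < W₁(e)`,
`δ = η - c₀ ≠ 0`, then `c₁` with `W₁(η - c₁) < W₁(δ)`, `h = c₁ - c₀ ∈ K`, `W₁(h) = W₁(δ)`, then `c`
with `W₁(η - c) < W₁(h)`. Taylor expansion at `η`: `b(c) = b(η) + ∑_(j ≥ 1) b_j(η) (c - η)^j` has
the value of `b(η)`, and `f_i(c) = ∑_j C(i+j, i) f_(i+j)(η) (c - η)^j` has value
`≤ max_j W₁(f_j(η))`, while `W₁(f_j(η)) W₁(h) < W₁(b(η))`. -/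
theorem exists_ch (W : ValuationSubring K) (W₁ : ValuationSubring M)
    (hWW : ∀ x : K, algebraMap K M x ∈ W₁ ↔ x ∈ W) (η : M) (hη : W₁.valuation η ≤ 1)
    (hη0 : ∀ c : K, η ≠ algebraMap K M c)
    (hd : ∀ h : M, h ≠ 0 → ∃ c : K, W₁.valuation (η - algebraMap K M c) < W₁.valuation h)
    (S T : Finset K[X]) (hST : S ⊆ T) (hS : ∀ b ∈ S, aeval η b ≠ 0) :
    ∃ c h : K, c ∈ W ∧ h ≠ 0 ∧ W.valuation h < 1 ∧
      W₁.valuation (η - algebraMap K M c) < W₁.valuation (algebraMap K M h) ∧
      (∀ b ∈ S, b.eval c ≠ 0) ∧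
      (∀ b ∈ S, W₁.valuation (algebraMap K M (b.eval c)) = W₁.valuation (aeval η b)) ∧
      ∀ b ∈ S, ∀ f ∈ T, ∀ i, W.valuation ((taylor c f).coeff i * h) < W.valuation (b.eval c) := by
  obtain ⟨e, he0, he1, he⟩ := Choose_min W₁ η S T hS
  obtain ⟨c₀, hc₀⟩ := hd e he0
  have hδ : η - algebraMap K M c₀ ≠ 0 := sub_ne_zero.2 (hη0 c₀)
  obtain ⟨c₁, hc₁⟩ := hd _ hδ
  have hh : algebraMap K M (c₁ - c₀) = (η - algebraMap K M c₀) - (η - algebraMap K M c₁) := by
    rw [map_sub]
    ring
  have hv : W₁.valuation (algebraMap K M (c₁ - c₀)) = W₁.valuation (η - algebraMap K M c₀) := by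
    rw [hh]
    exact W₁.valuation.map_sub_eq_of_lt_left hc₁
  have hv0 : W₁.valuation (algebraMap K M (c₁ - c₀)) ≠ 0 := by
    rw [hv]
    exact (Valuation.ne_zero_iff _).2 hδ
  have hM0 : algebraMap K M (c₁ - c₀) ≠ 0 := (Valuation.ne_zero_iff _).1 hv0
  obtain ⟨c, hc⟩ := hd _ hM0
  have hve : W₁.valuation (algebraMap K M (c₁ - c₀)) < W₁.valuation e := by
    rw [hv]
    exact hc₀
  have hh1 : W₁.valuation (algebraMap K M (c₁ - c₀)) < 1 := hve.trans_le he1
  have hcM : W₁.valuation (algebraMap K M c) ≤ 1 := by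
    have h1 : algebraMap K M c = η - (η - algebraMap K M c) := by ring
    rw [h1]
    refine (W₁.valuation.map_sub _ _).trans (max_le hη (hc.trans hh1).le)
  -- the increment `d = c - η`
  have hdv : W₁.valuation (algebraMap K M c - η) < W₁.valuation (algebraMap K M (c₁ - c₀)) := by
    rw [Valuation.map_sub_swap]
    exact hc
  have hd1 : W₁.valuation (algebraMap K M c - η) ≤ 1 := (hdv.trans hh1).le
  have htay : ∀ f : K[X], taylor (algebraMap K M c - η) (taylor η (f.map (algebraMap K M))) =
      (taylor c f).map (algebraMap K M) := by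
    intro f
    rw [taylor_taylor, sub_add_cancel, ← map_taylor]
  have hb0 : ∀ b : K[X], (taylor η (b.map (algebraMap K M))).coeff 0 = aeval η b := by
    intro b
    rw [taylor_coeff_zero, eval_map_algebraMap]
  have hbv : ∀ b ∈ S, W₁.valuation (algebraMap K M (b.eval c)) = W₁.valuation (aeval η b) := by
    intro b hb
    have h1 := Choose_eval W₁ (taylor η (b.map (algebraMap K M))) (algebraMap K M c - η)
      (algebraMap K M (c₁ - c₀)) hd1 hdv.le (by rw [hb0]; exact hS b hb) (fun j => by
        rw [hb0]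
        exact he _ hve b hb b (hST hb) j)
    rw [hb0, taylor_eval, sub_add_cancel, eval_map_algebraMap] at h1
    rw [← h1]
    congr 1
    exact (aeval_algebraMap_apply M c b).symm
  refine ⟨c, c₁ - c₀, ?_, ?_, ?_, hc, ?_, hbv, ?_⟩
  · rw [← hWW]
    exact (W₁.valuation_le_one_iff _).1 hcM
  · rintro h
    rw [h, map_zero] at hM0
    exact hM0 rfl
  · exact (val_lt_one hWW _).1 hh1
  · intro b hb h
    have h1 := hbv b hb
    rw [h, map_zero, map_zero] at h1
    exact (Valuation.ne_zero_iff _).2 (hS b hb) h1.symm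
  · intro b hb f hf i
    rw [← val_lt hWW, hbv b hb, map_mul]
    have h1 := Choose_coeff W₁ (taylor η (f.map (algebraMap K M))) (algebraMap K M c - η)
      (algebraMap K M (c₁ - c₀)) hd1 ((Valuation.ne_zero_iff _).2 (hS b hb))
      (fun j => he _ hve b hb f hf j) i
    rw [htay, coeff_map] at h1
    exact h1

/-- Taylor expansion at `c` with `η = c + h w`. -/
theorem taylor_ch (c h : K) (hh : h ≠ 0) (η w : M) (hw : η = algebraMap K M c + algebraMap K M h * w)
    (f : K[X]) : aeval η f = ∑ i ∈ Finset.range (f.natDegree + 1),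
      algebraMap K M ((taylor c f).coeff i * h ^ i) * w ^ i := by
  have h1 : aeval (algebraMap K M h * w) (taylor c f) = aeval η f := by
    rw [taylor_apply, aeval_comp, map_add, aeval_X, aeval_C, hw, add_comm]
  rw [← h1, aeval_eq_sum_range, natDegree_taylor]
  refine Finset.sum_congr rfl fun i _ => ?_
  rw [Algebra.smul_def, map_mul, map_pow, mul_pow, mul_assoc]

end LYD
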