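import Pool.Agent.helper90.LY.CompB
import Pool.Agent.helper90.LY.DescDim

/-! Project LYD (MP_53121e_ag): dense extensions of valued function fields. Notation: `K ⊆ M` fields
over `k`, `W` a valuation ring of `K`, `W₁` a valuation ring of `M` with `W₁ ∩ K = W`. -/

set_option autoImplicit false

namespace LYD

universe u

variable {k K M : Type u} [Field k] [Field K] [Field M] [Algebra k K] [Algebra k M] [Algebra K M]
  [IsScalarTower k K M]

theorem val_lt_one {W : ValuationSubring K} {W₁ : ValuationSubring M}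
    (hWW : ∀ x : K, algebraMap K M x ∈ W₁ ↔ x ∈ W) (x : K) :
    W₁.valuation (algebraMap K M x) < 1 ↔ W.valuation x < 1 := by
  rw [← ValuationSubring.mem_nonunits_iff, ← ValuationSubring.mem_nonunits_iff,
    ValuationSubring.mem_nonunits_iff_or, ValuationSubring.mem_nonunits_iff_or,
    ← map_inv₀, hWW, map_eq_zero]

theorem val_le_one {W : ValuationSubring K} {W₁ : ValuationSubring M}
    (hWW : ∀ x : K, algebraMap K M x ∈ W₁ ↔ x ∈ W) (x : K) :
    W₁.valuation (algebraMap K M x) ≤ 1 ↔ W.valuation x ≤ 1 := by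
  rw [W₁.valuation_le_one_iff, W.valuation_le_one_iff, hWW]

theorem val_eq_one {W : ValuationSubring K} {W₁ : ValuationSubring M}
    (hWW : ∀ x : K, algebraMap K M x ∈ W₁ ↔ x ∈ W) (x : K) :
    W₁.valuation (algebraMap K M x) = 1 ↔ W.valuation x = 1 := by
  have h1 := val_lt_one hWW x
  have h2 := val_le_one hWW x
  constructor
  · intro h
    exact le_antisymm (h2.1 h.le) (not_lt.1 fun h3 => (h1.2 h3).ne h)
  · intro h
    exact le_antisymm (h2.2 h.le) (not_lt.1 fun h3 => (h1.1 h3).ne h)

theorem val_lt {W : ValuationSubring K} {W₁ : ValuationSubring M}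
    (hWW : ∀ x : K, algebraMap K M x ∈ W₁ ↔ x ∈ W) (x y : K) :
    W₁.valuation (algebraMap K M x) < W₁.valuation (algebraMap K M y) ↔
      W.valuation x < W.valuation y := by
  by_cases hy : y = 0
  · rw [hy, map_zero, map_zero, map_zero]
    exact ⟨fun h => absurd h (not_lt.2 zero_le), fun h => absurd h (not_lt.2 zero_le)⟩
  · have hy1 : W.valuation y ≠ 0 := (W.valuation.ne_zero_iff).2 hy
    have hy2 : W₁.valuation (algebraMap K M y) ≠ 0 :=
      (W₁.valuation.ne_zero_iff).2 (by simpa using hy)
    have h1 := val_lt_one hWW (x / y)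
    rw [map_div₀, map_div₀, map_div₀, div_lt_one₀ (zero_lt_iff.2 hy1),
      div_lt_one₀ (zero_lt_iff.2 hy2)] at h1
    exact h1

theorem val_le {W : ValuationSubring K} {W₁ : ValuationSubring M}
    (hWW : ∀ x : K, algebraMap K M x ∈ W₁ ↔ x ∈ W) (x y : K) :
    W₁.valuation (algebraMap K M x) ≤ W₁.valuation (algebraMap K M y) ↔
      W.valuation x ≤ W.valuation y := by
  rw [← not_lt, ← not_lt, val_lt hWW]

end LYD
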