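import Pool.Agent.LYD.Tower

/-! Project LYD: dense separable extensions, in terms of intermediate fields. -/

set_option autoImplicit false

namespace LYD

universe u

variable {k K : Type u} [Field k] [Field K] [Algebra k K]

/-- Dense separable extensions of valued function fields. -/
theorem rel_dense (W : ValuationSubring K) (hW : ∀ c : k, algebraMap k K c ∈ W)
    (L : IntermediateField k K)
    (hsep : ∃ (m : ℕ) (z : Fin m → K), AlgebraicIndependent L z ∧
      FiniteDimensional (IntermediateField.adjoin L (Set.range z)) K ∧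
      Algebra.IsSeparable (IntermediateField.adjoin L (Set.range z)) K)
    (hd : ∀ x h : K, h ≠ 0 → ∃ c ∈ L, W.valuation (x - c) < W.valuation h)
    (h0 : LY.RelS k (W.comap (algebraMap L K))) : LY.RelS k W := by
  obtain ⟨m, z, h1, h2, h3⟩ := hsep
  refine rel_ext (W.comap (algebraMap L K)) W (fun x => Iff.rfl) (fun c => ?_) (fun x h hh => ?_) m z
    h1 h2 h3 h0
  · change algebraMap L K (algebraMap k L c) ∈ W
    rw [← IsScalarTower.algebraMap_apply]
    exact hW c
  · obtain ⟨c, hc, hlt⟩ := hd x h hh
    exact ⟨⟨c, hc⟩, hlt⟩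

end LYD
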