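import Pool.Agent.LYD.Lft

/-! Project LYD: domination. -/

set_option autoImplicit false

namespace LYD

universe u

variable {k K M : Type u} [Field k] [Field K] [Field M] [Algebra k K] [Algebra k M] [Algebra K M]
  [IsScalarTower k K M]

/-- the elements which a power of `H` moves into the subalgebra `C` -/
def Dom_loc (C : Subalgebra k M) (H : M) (hH : H ∈ C) : Subalgebra k M where
  carrier := {y | ∃ j : ℕ, H ^ j * y ∈ C}
  mul_mem' := by
    rintro a b ⟨i, hi⟩ ⟨j, hj⟩
    refine ⟨i + j, ?_⟩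
    have : H ^ (i + j) * (a * b) = (H ^ i * a) * (H ^ j * b) := by ring
    rw [this]
    exact C.mul_mem hi hj
  add_mem' := by
    rintro a b ⟨i, hi⟩ ⟨j, hj⟩
    refine ⟨i + j, ?_⟩
    have : H ^ (i + j) * (a + b) = H ^ j * (H ^ i * a) + H ^ i * (H ^ j * b) := by ring
    rw [this]
    exact C.add_mem (C.mul_mem (C.pow_mem hH j) hi) (C.mul_mem (C.pow_mem hH i) hj)
  algebraMap_mem' := by
    intro r
    refine ⟨0, ?_⟩
    rw [pow_zero, one_mul]
    exact C.algebraMap_mem r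

theorem Dom_map_mem (B : Finset K) (D : Finset M) (hD : ∀ b ∈ B, algebraMap K M b ∈ D) {x : K}
    (hx : x ∈ Algebra.adjoin k (B : Set K)) :
    algebraMap K M x ∈ Algebra.adjoin k (D : Set M) := by
  have h : Algebra.adjoin k (B : Set K) ≤
      (Algebra.adjoin k (D : Set M)).comap (IsScalarTower.toAlgHom k K M) :=
    Algebra.adjoin_le fun b hb => Algebra.subset_adjoin (hD b hb)
  exact h hx

open Classical in
/-- If `A ⊆ k[B][1/H]` and `η = c + h w`, `c, h ∈ A`, then `A[w] ⊆ k[B, η][1/(H^e h)]`. Proof: choose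
`e₀` with `H ^ e₀ h ∈ k[B]`, `e = e₀ + 1`, `H' = H ^ (e₀ + 1) h`; for `y = ∑ a_i w^i`
(`mem_lft_iff`), `h ^ N y = ∑ a_i h^(N-i) (η - c)^i ∈ A[η]`, and large powers of `H` clear the
coefficients. -/
theorem dom (B : Finset K) (A : Subalgebra k K) (H : K) (hH : H ∈ Algebra.adjoin k (B : Set K))
    (hHA : ∀ x ∈ A, ∃ e : ℕ, H ^ e * x ∈ Algebra.adjoin k (B : Set K)) (c h : K) (hc : c ∈ A)
    (hh : h ∈ A) (hh0 : h ≠ 0) (η w : M) (hw : η = algebraMap K M c + algebraMap K M h * w) :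
    ∃ e : ℕ, algebraMap K M (H ^ e * h) ∈
        Algebra.adjoin k ((insert η (B.image (algebraMap K M)) : Finset M) : Set M) ∧
      ∀ y ∈ LY.lft w A, ∃ j : ℕ, algebraMap K M (H ^ e * h) ^ j * y ∈
        Algebra.adjoin k ((insert η (B.image (algebraMap K M)) : Finset M) : Set M) := by
  set D : Finset M := insert η (B.image (algebraMap K M)) with hDdef
  have hmap : ∀ {x : K}, x ∈ Algebra.adjoin k (B : Set K) →
      algebraMap K M x ∈ Algebra.adjoin k (D : Set M) := fun {x} hx =>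
    Dom_map_mem B D (fun b hb => Finset.mem_insert_of_mem (Finset.mem_image_of_mem _ hb)) hx
  have hη : η ∈ Algebra.adjoin k (D : Set M) :=
    Algebra.subset_adjoin (Finset.mem_coe.2 (Finset.mem_insert_self _ _))
  obtain ⟨e₀, he₀⟩ := hHA h hh
  have hH' : H ^ (e₀ + 1) * h ∈ Algebra.adjoin k (B : Set K) := by
    have : H ^ (e₀ + 1) * h = H * (H ^ e₀ * h) := by ring
    rw [this]
    exact Subalgebra.mul_mem _ hH he₀
  have hle : LY.lft w A ≤
      Dom_loc (Algebra.adjoin k (D : Set M)) (algebraMap K M (H ^ (e₀ + 1) * h)) (hmap hH') := by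
    refine sup_le ?_ (Algebra.adjoin_le ?_)
    · rintro _ ⟨a, ha, rfl⟩
      obtain ⟨j, hj⟩ := hHA a ha
      refine ⟨j, ?_⟩
      have h1 : algebraMap K M (H ^ (e₀ + 1) * h) ^ j * (IsScalarTower.toAlgHom k K M a) =
          algebraMap K M ((H ^ e₀ * h) ^ j * (H ^ j * a)) := by
        rw [IsScalarTower.coe_toAlgHom', ← map_pow, ← map_mul]
        congr 1
        ring
      exact h1 ▸ hmap (Subalgebra.mul_mem _ (Subalgebra.pow_mem _ he₀ j) hj)
    · intro x hx
      rw [Set.mem_singleton_iff.1 hx]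
      obtain ⟨j, hj⟩ := hHA c hc
      refine ⟨j + 1, ?_⟩
      have h1 : algebraMap K M (H ^ (e₀ + 1) * h) ^ (j + 1) * w =
          algebraMap K M ((H ^ e₀ * h) ^ j * H ^ j * H ^ (e₀ + 1)) * η -
            algebraMap K M ((H ^ e₀ * h) ^ j * H ^ (e₀ + 1) * (H ^ j * c)) := by
        rw [hw]
        simp only [map_mul, map_pow]
        ring
      rw [h1]
      refine Subalgebra.sub_mem _ (Subalgebra.mul_mem _ (hmap ?_) hη) (hmap ?_)
      · exact Subalgebra.mul_mem _ (Subalgebra.mul_mem _ (Subalgebra.pow_mem _ he₀ j)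
          (Subalgebra.pow_mem _ hH j)) (Subalgebra.pow_mem _ hH _)
      · exact Subalgebra.mul_mem _ (Subalgebra.mul_mem _ (Subalgebra.pow_mem _ he₀ j)
          (Subalgebra.pow_mem _ hH _)) hj
  exact ⟨e₀ + 1, hmap hH', fun y hy => hle hy⟩

end LYD
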