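import Pool.Agent.LYD.Defs

/-! Project LYD: the algebra `A[w]` (`LY.lft w A`, file LY/Lift.lean). -/

set_option autoImplicit false

open Polynomial

namespace LYD

universe u

variable {k K M : Type u} [Field k] [Field K] [Field M] [Algebra k K] [Algebra k M] [Algebra K M]
  [IsScalarTower k K M]

/-- the polynomials in `w` over `A` -/
def Lft_alg (A : Subalgebra k K) (w : M) : Subalgebra k M where
  carrier := {x | ∃ f : A[X], x = f.eval₂ ((algebraMap K M).comp (A.val : A →+* K)) w}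
  mul_mem' := by
    rintro _ _ ⟨f, rfl⟩ ⟨g, rfl⟩
    exact ⟨f * g, (Polynomial.eval₂_mul _ _).symm⟩
  add_mem' := by
    rintro _ _ ⟨f, rfl⟩ ⟨g, rfl⟩
    exact ⟨f + g, (Polynomial.eval₂_add _ _).symm⟩
  algebraMap_mem' c := by
    refine ⟨C (algebraMap k A c), ?_⟩
    rw [Polynomial.eval₂_C]
    exact IsScalarTower.algebraMap_apply k K M c

omit [Algebra k M] [IsScalarTower k K M] in
theorem Lft_coe (A : Subalgebra k K) (a : A) :
    ((algebraMap K M).comp (A.val : A →+* K)) a = algebraMap K M (a : K) := rfl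

theorem Lft_eval_mem (A : Subalgebra k K) (w : M) (f : A[X]) :
    f.eval₂ ((algebraMap K M).comp (A.val : A →+* K)) w ∈ LY.lft w A := by
  rw [Polynomial.eval₂_eq_sum_range]
  refine sum_mem fun i _ => mul_mem ?_ (pow_mem (LY.self_mem_lft w A) _)
  exact LY.mem_lft w A (f.coeff i).2

/-- the elements of `A[w]` are the polynomials in `w` over `A` -/
theorem mem_lft_iff (A : Subalgebra k K) (w x : M) :
    x ∈ LY.lft w A ↔ ∃ f : A[X], x = f.eval₂ ((algebraMap K M).comp (A.val : A →+* K)) w := by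
  constructor
  · intro hx
    have h1 : LY.lft w A ≤ Lft_alg A w := by
      refine sup_le ?_ (Algebra.adjoin_le ?_)
      · rintro _ ⟨a, ha, rfl⟩
        exact ⟨C ⟨a, ha⟩, by rw [Polynomial.eval₂_C]; rfl⟩
      · rintro _ rfl
        exact ⟨X, by rw [Polynomial.eval₂_X]⟩
    exact h1 hx
  · rintro ⟨f, rfl⟩
    exact Lft_eval_mem A w f

theorem lft_split (A : Subalgebra k K) (w : M) {x : M} (hx : x ∈ LY.lft w A) :
    ∃ a ∈ A, ∃ y ∈ LY.lft w A, x = algebraMap K M a + w * y := by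
  obtain ⟨f, rfl⟩ := (mem_lft_iff A w x).1 hx
  refine ⟨f.coeff 0, (f.coeff 0).2,
    f.divX.eval₂ ((algebraMap K M).comp (A.val : A →+* K)) w, Lft_eval_mem A w _, ?_⟩
  conv_lhs => rw [← Polynomial.divX_mul_X_add f]
  rw [Polynomial.eval₂_add, Polynomial.eval₂_mul, Polynomial.eval₂_X, Polynomial.eval₂_C, Lft_coe]
  ring

theorem lft_mem {W : ValuationSubring K} {W₁ : ValuationSubring M}
    (hWW : ∀ x : K, algebraMap K M x ∈ W₁ ↔ x ∈ W) (A : Subalgebra k K) (hA : ∀ a ∈ A, a ∈ W)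
    (w : M) (hw : W₁.valuation w < 1) : ∀ x ∈ LY.lft w A, x ∈ W₁ := by
  intro x hx
  obtain ⟨f, rfl⟩ := (mem_lft_iff A w x).1 hx
  rw [Polynomial.eval₂_eq_sum_range]
  have hw1 : w ∈ W₁ := (W₁.valuation_le_one_iff w).1 hw.le
  refine sum_mem fun i _ => mul_mem ?_ (pow_mem hw1 _)
  exact (hWW _).2 (hA _ (f.coeff i).2)

theorem lft_fg (A : Subalgebra k K) (hA : A.FG) (w : M) : (LY.lft w A).FG := by
  classical
  refine Subalgebra.FG.sup (hA.map _) ?_
  have h1 := Subalgebra.fg_adjoin_finset (R := k) ({w} : Finset M)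
  rwa [Finset.coe_singleton] at h1

/-- compare `LY.frac_lft` (LY/Model.lean) -/
theorem lft_frac (A : Subalgebra k K) (hA : IsFractionRing A K) (w : M)
    (hw : IntermediateField.adjoin K {w} = ⊤) : IsFractionRing (LY.lft w A) M := by
  have key : ∀ x : M, ∃ n ∈ LY.lft w A, ∃ d ∈ LY.lft w A, d ≠ 0 ∧ x * d = n := by
    intro x
    have hx : x ∈ IntermediateField.adjoin K {w} := by
      rw [hw]
      exact IntermediateField.mem_top
    induction hx using IntermediateField.adjoin_induction with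
    | mem x hx =>
      rw [Set.mem_singleton_iff] at hx
      rw [hx]
      exact ⟨w, LY.self_mem_lft w A, 1, one_mem _, one_ne_zero, mul_one w⟩
    | algebraMap x =>
      obtain ⟨a, b, hb, h⟩ := IsFractionRing.div_surjective (A := A) x
      have hb0 : (b : K) ≠ 0 := by
        have h1 : b ≠ 0 := nonZeroDivisors.ne_zero hb
        exact fun h2 => h1 (Subtype.ext h2)
      refine ⟨algebraMap K M a, LY.mem_lft w A a.2, algebraMap K M b, LY.mem_lft w A b.2, ?_, ?_⟩
      · exact fun h2 => hb0 ((algebraMap K M).injective (h2.trans (map_zero _).symm))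
      · rw [← map_mul]
        congr 1
        rw [← h]
        show (a : K) / (b : K) * (b : K) = a
        exact div_mul_cancel₀ _ hb0
    | add x y _ _ h1 h2 =>
      obtain ⟨n, hn, d, hd, hd0, e⟩ := h1
      obtain ⟨n', hn', d', hd', hd0', e'⟩ := h2
      refine ⟨n * d' + n' * d, add_mem (mul_mem hn hd') (mul_mem hn' hd), d * d', mul_mem hd hd',
        mul_ne_zero hd0 hd0', ?_⟩
      rw [← e, ← e']
      ring
    | inv x _ h1 =>
      obtain ⟨n, hn, d, hd, hd0, e⟩ := h1
      by_cases hx0 : x = 0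
      · refine ⟨0, zero_mem _, 1, one_mem _, one_ne_zero, ?_⟩
        rw [hx0, inv_zero, zero_mul]
      · refine ⟨d, hd, n, hn, ?_, ?_⟩
        · rw [← e]
          exact mul_ne_zero hx0 hd0
        · rw [← e]
          field_simp
    | mul x y _ _ h1 h2 =>
      obtain ⟨n, hn, d, hd, hd0, e⟩ := h1
      obtain ⟨n', hn', d', hd', hd0', e'⟩ := h2
      refine ⟨n * n', mul_mem hn hn', d * d', mul_mem hd hd', mul_ne_zero hd0 hd0', ?_⟩
      rw [← e, ← e']
      ring
  refine IsFractionRing.of_field _ _ fun z => ?_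
  obtain ⟨n, hn, d, hd, hd0, e⟩ := key z
  refine ⟨⟨n, hn⟩, ⟨d, hd⟩, ?_⟩
  show z = n / d
  rw [← e, mul_div_cancel_right₀ _ hd0]

/-- monomials times units stay monomials times units (`N`, `D` in the centre of `A` iff their images
are in the centre of `A[w]`: `val_lt_one`, `LY.DescDim.mem_center`) -/
theorem mons_lft {W : ValuationSubring K} {W₁ : ValuationSubring M}
    (hWW : ∀ x : K, algebraMap K M x ∈ W₁ ↔ x ∈ W) (A : Subalgebra k K) (hA : ∀ a ∈ A, a ∈ W)
    (w : M) (hA₁ : ∀ a ∈ LY.lft w A, a ∈ W₁) {n : ℕ} (s : Fin n → A)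
    (s' : Fin n → LY.lft w A) (hs : ∀ i, (s' i : M) = algebraMap K M (s i)) {x : K}
    (hx : LY.MonS W A hA s x) : LY.MonS W₁ (LY.lft w A) hA₁ s' (algebraMap K M x) := by
  obtain ⟨a, N, D, hN, hD, h⟩ := hx
  refine ⟨a, ⟨algebraMap K M N, LY.mem_lft w A N.2⟩, ⟨algebraMap K M D, LY.mem_lft w A D.2⟩,
    ?_, ?_, ?_⟩
  · rw [LY.DescDim.mem_center] at hN ⊢
    rwa [val_lt_one hWW]
  · rw [LY.DescDim.mem_center] at hD ⊢
    rwa [val_lt_one hWW]
  · have h1 := congrArg (algebraMap K M) h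
    rw [map_mul, map_mul, map_prod] at h1
    rw [h1]
    congr 1
    refine Finset.prod_congr rfl fun i _ => ?_
    rw [hs, map_zpow₀]

/-- monomials in the first `n` of `n + 1` parameters (exponent `0` for the last one) -/
theorem mons_snoc {V : ValuationSubring M} {A : Subalgebra k M} {hA : ∀ a ∈ A, a ∈ V} {n : ℕ}
    (s : Fin (n + 1) → A) {x : M} (hx : LY.MonS V A hA (fun i : Fin n => s i.castSucc) x) :
    LY.MonS V A hA s x := by
  obtain ⟨a, N, D, hN, hD, h⟩ := hx
  refine ⟨Fin.snoc (α := fun _ => ℤ) a 0, N, D, hN, hD, ?_⟩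
  rw [h, Fin.prod_univ_castSucc]
  simp only [Fin.snoc_castSucc, Fin.snoc_last, zpow_zero, mul_one]

end LYD
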