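import Mathlib

/-! Project LYD: regular local rings are domains. -/

set_option autoImplicit false

namespace LYD

universe u

open IsLocalRing

theorem RegDom.m_not_le_sq (R : Type u) [CommRing R] [IsLocalRing R] [IsNoetherianRing R]
    (h0 : maximalIdeal R ≠ ⊥) : ¬ (maximalIdeal R ≤ maximalIdeal R * maximalIdeal R) := by
  intro hle
  apply h0
  apply Submodule.eq_bot_of_le_smul_of_le_jacobson_bot (maximalIdeal R) (maximalIdeal R)
    (IsNoetherian.noetherian _)
  · simpa [smul_eq_mul] using hle
  · rw [IsLocalRing.jacobson_eq_maximalIdeal ⊥ bot_ne_top]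

/-- `x` in `m` but not in `m²` can replace one of a minimal generating set. -/
theorem RegDom.span_quot (R : Type u) [CommRing R] [IsLocalRing R] [IsNoetherianRing R]
    (x : R) (hx : x ∈ maximalIdeal R) (hx2 : x ∉ maximalIdeal R * maximalIdeal R)
    [IsLocalRing (R ⧸ Ideal.span {x})] :
    (maximalIdeal (R ⧸ Ideal.span {x})).spanFinrank + 1 ≤ (maximalIdeal R).spanFinrank := by
  classical
  obtain ⟨s, hs, hspan⟩ := Submodule.FG.exists_span_finset_card_eq_spanFinrank
    (IsNoetherian.noetherian (maximalIdeal R))
  have hxs : x ∈ Submodule.span R (s : Set R) := by rw [hspan]; exact hx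
  obtain ⟨f, -, hf⟩ := Submodule.mem_span_finset.mp hxs
  have hsm : ∀ a ∈ s, a ∈ maximalIdeal R := fun a ha => by
    rw [← hspan]; exact Submodule.subset_span ha
  obtain ⟨j, hj, hju⟩ : ∃ j ∈ s, f j ∉ maximalIdeal R := by
    by_contra hcon
    push Not at hcon
    apply hx2
    rw [← hf]
    refine Ideal.sum_mem _ fun a ha => ?_
    rw [smul_eq_mul]
    exact Ideal.mul_mem_mul (hcon a ha) (hsm a ha)
  have hunit : IsUnit (f j) := by
    by_contra hn
    exact hju ((IsLocalRing.mem_maximalIdeal _).mpr hn)
  -- `j` is in the span of `x` and the others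
  have hmap : maximalIdeal (R ⧸ Ideal.span {x}) =
      Ideal.map (Ideal.Quotient.mk (Ideal.span {x})) (maximalIdeal R) := by
    refine le_antisymm ?_ ?_
    · intro y hy
      obtain ⟨r, rfl⟩ := Ideal.Quotient.mk_surjective y
      apply Ideal.mem_map_of_mem
      by_contra hr
      have hur : IsUnit r := by
        by_contra hn
        exact hr ((IsLocalRing.mem_maximalIdeal _).mpr hn)
      exact (IsLocalRing.mem_maximalIdeal _).mp hy (hur.map _)
    · rw [Ideal.map_le_iff_le_comap]
      intro r hr
      rw [Ideal.mem_comap, IsLocalRing.mem_maximalIdeal]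
      intro hu
      obtain ⟨y, hy⟩ := hu.exists_right_inv
      obtain ⟨t, rfl⟩ := Ideal.Quotient.mk_surjective y
      have h1 : r * t - 1 ∈ Ideal.span {x} := by
        rw [← Ideal.Quotient.mk_eq_mk_iff_sub_mem]
        simpa using hy
      have h2 : r * t - 1 ∈ maximalIdeal R :=
        (Ideal.span_singleton_le_iff_mem _).mpr hx h1
      have h3 : (1 : R) ∈ maximalIdeal R := by
        have := Ideal.sub_mem _ (Ideal.mul_mem_right t _ hr) h2
        simpa using this
      exact (Ideal.ne_top_iff_one _).mp (Ideal.IsPrime.ne_top inferInstance) h3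
  have hgen : maximalIdeal (R ⧸ Ideal.span {x}) =
      Submodule.span (R ⧸ Ideal.span {x})
        ((Ideal.Quotient.mk (Ideal.span {x})) '' ((s.erase j : Finset R) : Set R)) := by
    rw [hmap]
    have e1 : maximalIdeal R = Ideal.span (s : Set R) := hspan.symm
    rw [e1, Ideal.map_span]
    apply le_antisymm
    · rw [Ideal.span_le]
      rintro _ ⟨a, ha, rfl⟩
      by_cases haj : a = j
      · subst haj
        obtain ⟨u, hu⟩ := hunit
        have hsum : x = f a * a + ∑ b ∈ s.erase a, f b * b := by
          rw [← hf]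
          simp only [smul_eq_mul]
          exact (Finset.add_sum_erase s (fun b => f b * b) hj).symm
        have hx0 : Ideal.Quotient.mk (Ideal.span {x}) x = 0 :=
          Ideal.Quotient.eq_zero_iff_mem.mpr (Ideal.mem_span_singleton_self x)
        have hq : Ideal.Quotient.mk (Ideal.span {x}) a =
            - ((Ideal.Quotient.mk (Ideal.span {x})) ((u⁻¹ : Rˣ) : R) *
              ∑ b ∈ s.erase a, (Ideal.Quotient.mk (Ideal.span {x})) (f b) *
                (Ideal.Quotient.mk (Ideal.span {x})) b) := by
          have h4 : a = ((u⁻¹ : Rˣ) : R) * (x - ∑ b ∈ s.erase a, f b * b) := by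
            have : x - ∑ b ∈ s.erase a, f b * b = f a * a := by
              rw [hsum]; ring
            rw [this, ← hu, ← mul_assoc, Units.inv_mul, one_mul]
          conv_lhs => rw [h4]
          rw [map_mul, map_sub, hx0, map_sum]
          simp only [map_mul]
          ring
        show _ ∈ Submodule.span _ _
        rw [hq]
        refine Submodule.neg_mem _ (Ideal.mul_mem_left _ _ (Submodule.sum_mem _ fun b hb => ?_))
        exact Ideal.mul_mem_left _ _ (Submodule.subset_span ⟨b, hb, rfl⟩)
      · exact Submodule.subset_span ⟨a, Finset.mem_coe.mpr (Finset.mem_erase.mpr ⟨haj, ha⟩), rfl⟩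
    · apply Ideal.span_mono
      apply Set.image_mono
      exact_mod_cast Finset.erase_subset j s
  have hcard : (s.erase j).card + 1 = s.card := Finset.card_erase_add_one hj
  rw [← hs, ← hcard, hgen]
  refine Nat.add_le_add_right ?_ 1
  refine (Submodule.spanFinrank_span_le_ncard_of_finite
    ((Finset.finite_toSet _).image _)).trans ?_
  refine (Set.ncard_image_le (Finset.finite_toSet _)).trans ?_
  rw [Set.ncard_coe_finset]

theorem RegDom.aux (n : ℕ) : ∀ (R : Type u) [CommRing R] [IsLocalRing R] [IsNoetherianRing R]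
    (_ : (maximalIdeal R).spanFinrank = ringKrullDim R)
    (_ : (maximalIdeal R).spanFinrank = n), IsDomain R := by
  induction n using Nat.strong_induction_on with
  | _ n ih =>
  intro R _ _ _ hreg hn
  classical
  by_cases hm : maximalIdeal R = ⊥
  · have hf : IsField R := IsLocalRing.isField_iff_maximalIdeal_eq.mpr hm
    letI := hf.toField
    exact hf.isDomain
  have hn0 : n ≠ 0 := by
    intro h0
    apply hm
    rw [h0] at hn
    exact (Submodule.spanFinrank_eq_zero_iff_eq_bot (IsNoetherian.noetherian _)).mp hn
  have hP : ∀ P ∈ minimalPrimes R, ¬ maximalIdeal R ≤ P := by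
    intro P hP hle
    haveI : P.IsPrime := hP.1.1
    have hPm : P = maximalIdeal R :=
      le_antisymm (IsLocalRing.le_maximalIdeal (Ideal.IsPrime.ne_top inferInstance)) hle
    have h1 : (maximalIdeal R).height = 0 := by
      rw [← hPm]
      exact Ideal.height_eq_zero_iff.mpr hP
    have h2 := IsLocalRing.maximalIdeal_height_eq_ringKrullDim (R := R)
    rw [h1, ← hreg, hn] at h2
    apply hn0
    exact_mod_cast h2.symm
  have hfin := minimalPrimes.finite_of_isNoetherianRing R
  have havoid : ¬ ((maximalIdeal R : Set R) ⊆ ⋃ i ∈ ((insert (maximalIdeal R * maximalIdeal R)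
      hfin.toFinset : Finset (Ideal R)) : Set (Ideal R)), ((id i : Ideal R) : Set R)) := by
    rw [Ideal.subset_union_prime (maximalIdeal R * maximalIdeal R)
      (maximalIdeal R * maximalIdeal R)]
    · rintro ⟨i, hi, hle⟩
      rcases Finset.mem_insert.mp hi with rfl | hi
      · exact RegDom.m_not_le_sq R hm hle
      · exact hP i (hfin.mem_toFinset.mp hi) hle
    · intro i hi hi1 _
      rcases Finset.mem_insert.mp hi with h | hi
      · exact absurd h hi1
      · exact (hfin.mem_toFinset.mp hi).1.1
  obtain ⟨x, hx, hx'⟩ := Set.not_subset.mp havoid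
  have hx2 : x ∉ maximalIdeal R * maximalIdeal R := by
    intro h
    apply hx'
    simp only [Set.mem_iUnion]
    exact ⟨_, Finset.mem_coe.mpr (Finset.mem_insert_self _ _), h⟩
  have hxP : ∀ P ∈ minimalPrimes R, x ∉ P := by
    intro P hP h
    apply hx'
    simp only [Set.mem_iUnion]
    exact ⟨P, Finset.mem_coe.mpr (Finset.mem_insert_of_mem (hfin.mem_toFinset.mpr hP)), h⟩
  have hle : Ideal.span {x} ≤ maximalIdeal R := (Ideal.span_singleton_le_iff_mem _).mpr hx
  have hne : Ideal.span {x} ≠ (⊤ : Ideal R) := by
    intro h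
    rw [h, top_le_iff] at hle
    exact (Ideal.IsPrime.ne_top (I := maximalIdeal R) inferInstance) hle
  haveI : Nontrivial (R ⧸ Ideal.span {x}) := Ideal.Quotient.nontrivial_iff.mpr hne
  haveI : IsLocalRing (R ⧸ Ideal.span {x}) :=
    IsLocalRing.of_surjective' (Ideal.Quotient.mk _) Ideal.Quotient.mk_surjective
  have hsp := RegDom.span_quot R x hx hx2
  have hdim : ringKrullDim R ≤ ringKrullDim (R ⧸ Ideal.span {x}) + 1 := by
    have := ringKrullDim_le_ringKrullDim_quotient_add_encard ({x} : Set R) (by
      simp only [Set.singleton_subset_iff, SetLike.mem_coe]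
      rw [IsLocalRing.ringJacobson_eq_maximalIdeal]
      exact hx)
    rw [Set.encard_singleton] at this
    simpa using! this
  have hreg' : IsRegularLocalRing (R ⧸ Ideal.span {x}) := by
    apply IsRegularLocalRing.of_spanFinrank_maximalIdeal_le
    have h1 : (((maximalIdeal (R ⧸ Ideal.span {x})).spanFinrank + 1 : ℕ) : WithBot ℕ∞) ≤
        ringKrullDim (R ⧸ Ideal.span {x}) + 1 := by
      refine le_trans ?_ hdim
      rw [← hreg]
      exact_mod_cast hsp
    have h2 : (((maximalIdeal (R ⧸ Ideal.span {x})).spanFinrank : ℕ) : WithBot ℕ∞) + 1 ≤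
        ringKrullDim (R ⧸ Ideal.span {x}) + 1 := by
      simpa using h1
    exact ENat.WithBot.add_le_add_one_right_iff.mp h2
  haveI : IsDomain (R ⧸ Ideal.span {x}) :=
    ih _ (by omega) _ hreg'.spanFinrank_maximalIdeal rfl
  haveI hprime : (Ideal.span {x}).IsPrime := (Ideal.Quotient.isDomain_iff_prime _).mp inferInstance
  obtain ⟨P, hPmin, hPle⟩ := Ideal.exists_minimalPrimes_le (I := (⊥ : Ideal R))
    (J := Ideal.span {x}) bot_le
  have hPmin' : P ∈ minimalPrimes R := hPmin
  haveI hPp : P.IsPrime := hPmin'.1.1
  have hPbot : P = ⊥ := by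
    apply Submodule.eq_bot_of_le_smul_of_le_jacobson_bot (maximalIdeal R) P
      (IsNoetherian.noetherian _)
    · intro y hy
      obtain ⟨a, rfl⟩ := Ideal.mem_span_singleton'.mp (hPle hy)
      have ha : a ∈ P := (hPp.mem_or_mem hy).resolve_right (hxP P hPmin')
      rw [smul_eq_mul, mul_comm a x]
      exact Ideal.mul_mem_mul hx ha
    · rw [IsLocalRing.jacobson_eq_maximalIdeal ⊥ bot_ne_top]
  rw [hPbot] at hPp
  exact IsDomain.of_bot_isPrime R

/-- A regular local ring is a domain. Proof: induction on the dimension `n`. `n = 0`: the maximal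
ideal is generated by no element (`spanFinrank = 0`), so the ring is a field. `n ≥ 1`: let
`P_1, …, P_r` be the minimal primes (finitely many, `minimalPrimes.finite_of_isNoetherianRing`); none
contains `m` (height `n ≥ 1`), and `m` is not contained in `m ^ 2` (Nakayama), so by prime avoidance
(`Ideal.subset_union_prime`, two exceptions allowed) there is `x ∈ m`, not in `m ^ 2`, not in any
`P_i`. Then `R/x` is local, its maximal ideal is generated by `n - 1` elements (`x` is part of a
minimal system of generators: `Submodule.spanFinrank` of the cotangent space / of `m` drops by one),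
and `dim R/x ≥ n - 1` (`ringKrullDim_le_ringKrullDim_add_card`/`..._quotSMulTop_succ`), so `R/x` is
regular of dimension `n - 1`, a domain by induction; `(x)` is prime. A minimal prime `P ⊆ (x)` does not
contain `x`, so `P = x P` (if `y = x a ∈ P` then `a ∈ P`), hence `P = 0` by Nakayama. -/
theorem reg_domain (R : Type u) [CommRing R] [IsLocalRing R] [IsNoetherianRing R]
    [h : IsRegularLocalRing R] : IsDomain R :=
  RegDom.aux _ R h.spanFinrank_maximalIdeal rfl

end LYD
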