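import Pool.Agent.LYD.Defs
import Pool.Agent.helper90.LX.SUCrit

/-! Project LYD: a weaker form of `RelS`. -/

set_option autoImplicit false

open IsLocalRing

namespace LYD

universe u

variable {k K : Type u} [Field k] [Field K] [Algebra k K]

/-- Enlarging a chart by finitely many elements of the local ring of the centre, with explicit new
chart. -/
theorem Weak_enlarge (W : ValuationSubring K) (A : Subalgebra k K) (h : ∀ a ∈ A, a ∈ W)
    (hfg : A.FG) (hfr : IsFractionRing A K) (n : ℕ) (s : Fin n → A)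
    (hreg : IsRegularLocalRing (Localization.AtPrime (LU.center W A h)))
    (hdim : ringKrullDim (Localization.AtPrime (LU.center W A h)) = n)
    (hspan : Ideal.span (Set.range fun i =>
        algebraMap A (Localization.AtPrime (LU.center W A h)) (s i)) =
          maximalIdeal (Localization.AtPrime (LU.center W A h)))
    (F : Finset K)
    (hF : ∀ x ∈ F, ∃ N D : A, D ∉ LU.center W A h ∧ x * (D : K) = (N : K))
    (A' : Subalgebra k K) (hA' : A' = A ⊔ Algebra.adjoin k (F : Set K)) :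
    ∃ (h' : ∀ a ∈ A', a ∈ W) (s' : Fin n → A'),
      (∀ i, (s' i : K) = (s i : K)) ∧ A'.FG ∧ IsFractionRing A' K ∧
      IsRegularLocalRing (Localization.AtPrime (LU.center W A' h')) ∧
      ringKrullDim (Localization.AtPrime (LU.center W A' h')) = n ∧
      Ideal.span (Set.range fun i =>
        algebraMap A' (Localization.AtPrime (LU.center W A' h')) (s' i)) =
          maximalIdeal (Localization.AtPrime (LU.center W A' h')) := by
  classical
  have hAA' : A ≤ A' := by
    rw [hA']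
    exact le_sup_left
  have hA'l : A' ≤ LX.SUCrit.loc W A h := by
    rw [hA']
    refine sup_le (LX.SUCrit.le_loc W A h) (Algebra.adjoin_le ?_)
    intro x hx
    exact hF x hx
  have h' : ∀ a ∈ A', a ∈ W := fun a ha => LX.SUCrit.loc_le W A h a (hA'l ha)
  have hloc : LX.SUCrit.loc W A' h' = LX.SUCrit.loc W A h := by
    apply le_antisymm
    · rintro x ⟨N, D, hD, hx⟩
      obtain ⟨N1, D1, hD1, hx1⟩ := hA'l N.2
      obtain ⟨N2, D2, hD2, hx2⟩ := hA'l D.2
      have v1 := LX.SUCrit.val_eq_one W A' h' D hD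
      have v2 := LX.SUCrit.val_eq_one W A h D2 hD2
      have hN2 : N2 ∉ LU.center W A h := by
        rw [LX.SUCrit.mem_center, ← hx2, map_mul, v1, v2, mul_one]
        exact lt_irrefl _
      refine ⟨N1 * D2, D1 * N2, ?_, ?_⟩
      · intro hc
        rcases (inferInstance : (LU.center W A h).IsPrime).mem_or_mem hc with hc | hc
        · exact hD1 hc
        · exact hN2 hc
      · push_cast
        rw [← hx1, ← hx2, ← hx]
        ring
    · rintro x ⟨N, D, hD, hx⟩
      refine ⟨⟨N, hAA' N.2⟩, ⟨D, hAA' D.2⟩, ?_, hx⟩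
      rw [LX.SUCrit.mem_center] at hD ⊢
      exact hD
  obtain ⟨e1, he1⟩ := LX.SUCrit.equiv W A h
  obtain ⟨e2, he2⟩ := LX.SUCrit.equiv W A' h'
  let e3 : LX.SUCrit.loc W A h ≃+* LX.SUCrit.loc W A' h' :=
    (Subalgebra.equivOfEq _ _ hloc.symm).toRingEquiv
  let e : Localization.AtPrime (LU.center W A h) ≃+* Localization.AtPrime (LU.center W A' h') :=
    (e1.trans e3).trans e2.symm
  have he : ∀ a : A, e (algebraMap A _ a) =
      algebraMap A' (Localization.AtPrime (LU.center W A' h')) ⟨a, hAA' a.2⟩ := by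
    intro a
    apply e2.injective
    apply Subtype.ext
    rw [he2]
    change ((e2 (e2.symm (e3 (e1 (algebraMap A _ a)))) : LX.SUCrit.loc W A' h') : K) = a
    rw [e2.apply_symm_apply]
    exact he1 a
  refine ⟨h', fun i => ⟨s i, hAA' (s i).2⟩, fun i => rfl, ?_, ?_, ?_, ?_, ?_⟩
  · rw [hA']
    exact hfg.sup ⟨F, rfl⟩
  · refine IsFractionRing.of_field _ _ ?_
    intro x
    obtain ⟨a, b, _, hab⟩ := IsFractionRing.div_surjective (A := A) x
    exact ⟨⟨a, hAA' a.2⟩, ⟨b, hAA' b.2⟩, hab.symm⟩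
  · exact IsRegularLocalRing.of_ringEquiv e
  · rw [← hdim]
    exact (ringKrullDim_eq_of_ringEquiv e).symm
  · rw [← IsLocalRing.map_ringEquiv_maximalIdeal e, ← hspan, Ideal.map_span, ← Set.range_comp]
    congr 2
    funext i
    exact (he (s i)).symm

/-- the elements which become elements of `C` after multiplication by a power of `H` -/
def Weak_clr (C : Subalgebra k K) (H : K) (hH : H ∈ C) : Subalgebra k K where
  carrier := {z | ∃ e : ℕ, H ^ e * z ∈ C}
  mul_mem' := by
    rintro x y ⟨e, he⟩ ⟨f, hf⟩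
    refine ⟨e + f, ?_⟩
    have h1 : H ^ (e + f) * (x * y) = (H ^ e * x) * (H ^ f * y) := by
      rw [pow_add]
      ring
    rw [h1]
    exact mul_mem he hf
  add_mem' := by
    rintro x y ⟨e, he⟩ ⟨f, hf⟩
    refine ⟨e + f, ?_⟩
    have h1 : H ^ (e + f) * (x + y) = H ^ f * (H ^ e * x) + H ^ e * (H ^ f * y) := by
      rw [pow_add]
      ring
    rw [h1]
    exact add_mem (mul_mem (pow_mem hH f) he) (mul_mem (pow_mem hH e) hf)
  algebraMap_mem' := fun c => ⟨0, by
    rw [pow_zero, one_mul]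
    exact C.algebraMap_mem c⟩

theorem Weak_mem_clr {C : Subalgebra k K} {H : K} {hH : H ∈ C} {z : K} :
    z ∈ Weak_clr C H hH ↔ ∃ e : ℕ, H ^ e * z ∈ C := Iff.rfl

/-- monomials in an enlarged chart -/
theorem Weak_mono {W : ValuationSubring K} {A A' : Subalgebra k K} {h : ∀ a ∈ A, a ∈ W}
    {h' : ∀ a ∈ A', a ∈ W} (hAA' : A ≤ A') {n : ℕ} {s : Fin n → A} {s' : Fin n → A'}
    (hs : ∀ i, (s' i : K) = (s i : K)) {x : K} (hx : LY.MonS W A h s x) :
    LY.MonS W A' h' s' x := by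
  obtain ⟨a, N, D, hN, hD, hx⟩ := hx
  refine ⟨a, ⟨N, hAA' N.2⟩, ⟨D, hAA' D.2⟩, ?_, ?_, ?_⟩
  · rw [LX.SUCrit.mem_center] at hN ⊢
    exact hN
  · rw [LX.SUCrit.mem_center] at hD ⊢
    exact hD
  · simp only [hs]
    exact hx

/-- a power of a monomial times a unit of the local ring -/
theorem Weak_powMul {W : ValuationSubring K} {A : Subalgebra k K} {h : ∀ a ∈ A, a ∈ W}
    {n : ℕ} {s : Fin n → A} {x : K} (hx : LY.MonS W A h s x) (m : ℕ) (d : A)
    (hd : W.valuation (d : K) = 1) : LY.MonS W A h s (x ^ m * d) := by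
  obtain ⟨a, N, D, hN, hD, hx⟩ := hx
  refine ⟨fun i => a i * m, N ^ m * d, D ^ m, ?_, ?_, ?_⟩
  · rw [LX.SUCrit.mem_center]
    push_cast
    rw [map_mul, map_pow, LX.SUCrit.val_eq_one W A h N hN, hd, one_pow, mul_one]
    exact lt_irrefl _
  · rw [LX.SUCrit.mem_center]
    push_cast
    rw [map_pow, LX.SUCrit.val_eq_one W A h D hD, one_pow]
    exact lt_irrefl _
  · push_cast
    have h1 : (∏ i, ((s i : A) : K) ^ (a i * (m : ℤ))) = (∏ i, ((s i : A) : K) ^ a i) ^ m := by
      rw [← Finset.prod_pow]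
      exact Finset.prod_congr rfl fun i _ => by rw [zpow_mul, zpow_natCast]
    rw [h1]
    calc x ^ m * (d : K) * (D : K) ^ m = (x * D) ^ m * d := by rw [mul_pow]; ring
      _ = _ := by rw [hx, mul_pow]; ring

/-- In `RelS` it suffices that the elements of `F ∩ W` are in the local ring of the chart.
Proof: `LX.su_enlarge` (LX/SUCrit.lean) with `F ∩ W`: `A' = A[F ∩ W]`-like, the monomial conditions pass
from `A` to `A'` (`A ≤ A'`, the centre of `A` is the intersection of the centre of `A'` with `A`). The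
new chart is not explicit in `LX.su_enlarge`; take `A' = A ⊔ Algebra.adjoin k (F ∩ W)` as in its proof
(or repeat the proof). For `x ∈ F ∩ W`, `x d_x = b_x`, `W(d_x) = 1`: `H' = H ∏ (H ^ e_x d_x)` with
`H ^ e_x d_x ∈ k[B]`. -/
theorem rel_weak (W : ValuationSubring K) (B : Finset K)
    (h : ∀ F : Finset K, (∀ x ∈ F, x ≠ 0) →
      ∃ (A : Subalgebra k K) (h : ∀ a ∈ A, a ∈ W) (n : ℕ) (s : Fin n → A),
        A.FG ∧ IsFractionRing A K ∧
        IsRegularLocalRing (Localization.AtPrime (LU.center W A h)) ∧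
        ringKrullDim (Localization.AtPrime (LU.center W A h)) = n ∧
        Ideal.span (Set.range fun i => algebraMap A (Localization.AtPrime (LU.center W A h)) (s i)) =
          maximalIdeal (Localization.AtPrime (LU.center W A h)) ∧
        (∀ x ∈ F, x ∈ W → ∃ b ∈ A, ∃ d ∈ A, W.valuation d = 1 ∧ x * d = b) ∧
        (∀ x ∈ F, LY.MonS W A h s x) ∧
        ∃ H ∈ Algebra.adjoin k (B : Set K), H ≠ 0 ∧ LY.MonS W A h s H ∧
          ∀ x ∈ A, ∃ e : ℕ, H ^ e * x ∈ Algebra.adjoin k (B : Set K)) : LY.RelS k W := by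
  classical
  refine ⟨B, fun F hF0 => ?_⟩
  obtain ⟨A, hA, n, s, hfg, hfr, hreg, hdim, hspan, hFA, hFM, H, hHB, hH0, hHM, hHA⟩ := h F hF0
  set C : Subalgebra k K := Algebra.adjoin k (B : Set K) with hC
  have hch : ∀ x : K, ∃ b d : K, x ∈ F → x ∈ W → b ∈ A ∧ d ∈ A ∧ W.valuation d = 1 ∧ x * d = b := by
    intro x
    by_cases hx : x ∈ F ∧ x ∈ W
    · obtain ⟨b, hb, d, hd, hd1, hxd⟩ := hFA x hx.1 hx.2
      exact ⟨b, d, fun _ _ => ⟨hb, hd, hd1, hxd⟩⟩
    · exact ⟨0, 0, fun h1 h2 => absurd ⟨h1, h2⟩ hx⟩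
  choose b d hbd using hch
  set F' : Finset K := F.filter fun x => x ∈ W with hF'
  have hF'm : ∀ x ∈ F', b x ∈ A ∧ d x ∈ A ∧ W.valuation (d x) = 1 ∧ x * d x = b x := fun x hx =>
    hbd x (Finset.mem_filter.1 hx).1 (Finset.mem_filter.1 hx).2
  have hch2 : ∀ x : K, ∃ e : ℕ, x ∈ F' → H ^ e * d x ∈ C := by
    intro x
    by_cases hx : x ∈ F'
    · obtain ⟨e, he⟩ := hHA (d x) (hF'm x hx).2.1
      exact ⟨e, fun _ => he⟩
    · exact ⟨0, fun h1 => absurd h1 hx⟩
  choose e he using hch2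
  set A' : Subalgebra k K := A ⊔ Algebra.adjoin k (F' : Set K) with hA'
  have hAA' : A ≤ A' := le_sup_left
  obtain ⟨h', s', hs', hfg', hfr', hreg', hdim', hspan'⟩ := Weak_enlarge W A hA hfg hfr n s hreg
    hdim hspan F' (fun x hx => by
      obtain ⟨h1, h2, h3, h4⟩ := hF'm x hx
      refine ⟨⟨b x, h1⟩, ⟨d x, h2⟩, ?_, h4⟩
      rw [LX.SUCrit.mem_center]
      exact h3.not_lt) A' rfl
  set P : K := ∏ x ∈ F', (H ^ e x * d x) with hP
  have hPC : P ∈ C := Subalgebra.prod_mem _ fun x hx => he x hx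
  have hHPC : H * P ∈ C := mul_mem hHB hPC
  have hd0 : ∀ x ∈ F', d x ≠ 0 := by
    intro x hx h0
    have h1 := (hF'm x hx).2.2.1
    rw [h0, map_zero] at h1
    exact zero_ne_one h1
  have hP0 : P ≠ 0 := Finset.prod_ne_zero_iff.2 fun x hx => mul_ne_zero (pow_ne_zero _ hH0) (hd0 x hx)
  refine ⟨A', h', n, s', hfg', hfr', hreg', hdim', hspan', ?_, fun x hx => Weak_mono hAA' hs' (hFM x hx),
    H * P, hHPC, mul_ne_zero hH0 hP0, ?_, ?_⟩
  · intro x hx hxW
    exact (le_sup_right : Algebra.adjoin k (F' : Set K) ≤ A')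
      (Algebra.subset_adjoin (Finset.mem_coe.2 (Finset.mem_filter.2 ⟨hx, hxW⟩)))
  · have hdA : ∏ x ∈ F', d x ∈ A' := Subalgebra.prod_mem _ fun x hx => hAA' (hF'm x hx).2.1
    have h1 : H * P = H ^ (1 + ∑ x ∈ F', e x) * ((⟨_, hdA⟩ : A') : K) := by
      rw [hP, Finset.prod_mul_distrib, Finset.prod_pow_eq_pow_sum, pow_add, pow_one]
      ring
    rw [h1]
    refine Weak_powMul (Weak_mono hAA' hs' hHM) _ _ ?_
    change W.valuation (∏ x ∈ F', d x) = 1
    rw [map_prod]
    exact Finset.prod_eq_one fun x hx => (hF'm x hx).2.2.1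
  · have hle : A' ≤ Weak_clr C (H * P) hHPC := by
      have hA1 : A ≤ Weak_clr C (H * P) hHPC := by
        intro x hx
        obtain ⟨m, hm⟩ := hHA x hx
        refine ⟨m, ?_⟩
        rw [mul_pow, mul_right_comm]
        exact mul_mem hm (pow_mem hPC m)
      rw [hA']
      refine sup_le hA1 (Algebra.adjoin_le ?_)
      intro x hx
      have hx' : x ∈ F' := hx
      obtain ⟨h1, h2, h3, h4⟩ := hF'm x hx'
      have h5 : (H * P) * x = (H * (∏ y ∈ F'.erase x, (H ^ e y * d y)) * H ^ e x) * b x := by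
        rw [hP, ← Finset.mul_prod_erase F' _ hx', ← h4]
        ring
      have h6 : H * (∏ y ∈ F'.erase x, (H ^ e y * d y)) * H ^ e x ∈ C :=
        mul_mem (mul_mem hHB (Subalgebra.prod_mem _ fun y hy => he y (Finset.mem_of_mem_erase hy)))
          (pow_mem hHB _)
      obtain ⟨m, hm⟩ := hA1 h1
      refine ⟨m + 1, ?_⟩
      have h7 : (H * P) ^ (m + 1) * x =
          (H * (∏ y ∈ F'.erase x, (H ^ e y * d y)) * H ^ e x) * ((H * P) ^ m * b x) := by
        rw [pow_succ, mul_assoc, h5]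
        ring
      rw [h7]
      exact mul_mem h6 hm
    exact fun x hx => hle hx

end LYD
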