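import Pool.Agent.LYD.ChartT
import Pool.Agent.LYD.Choose
import Pool.Agent.LYD.Weak
import Pool.Agent.LYD.Dom

/-! Project LYD: adjoining a transcendental element (assembly, helper90). -/

set_option autoImplicit false

open Polynomial

namespace LYD

universe u

section aux

variable {k K : Type u} [Field k] [Field K] [Algebra k K]

/-- elements of value one of the chart are monomials times units -/
theorem mons_unit {V : ValuationSubring K} {A : Subalgebra k K} (hA : ∀ a ∈ A, a ∈ V) {n : ℕ}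
    (s : Fin n → A) {x : K} (hx : x ∈ A) (h1 : V.valuation x = 1) : LY.MonS V A hA s x := by
  have h2 : (1 : A) ∉ LU.center V A hA := fun h1 =>
    (inferInstance : (LU.center V A hA).IsPrime).ne_top ((Ideal.eq_top_iff_one _).2 h1)
  refine ⟨0, ⟨x, hx⟩, 1, fun h3 => ?_, h2, ?_⟩
  · rw [LY.DescDim.mem_center] at h3
    exact absurd h1 h3.ne
  · simp

end aux

variable {k K M : Type u} [Field k] [Field K] [Field M] [Algebra k K] [Algebra k M] [Algebra K M]
  [IsScalarTower k K M]

/-- the factor `1 + ∑ r_i w^i` -/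
noncomputable def uf (c h : K) (w : M) (f : K[X]) : M :=
  1 + ∑ i ∈ Finset.range f.natDegree,
    algebraMap K M ((taylor c f).coeff (i + 1) * h ^ (i + 1) / f.eval c) * w ^ (i + 1)

theorem aeval_uf (c h : K) (hh : h ≠ 0) (η w : M)
    (hw : η = algebraMap K M c + algebraMap K M h * w) (f : K[X]) (hf : f.eval c ≠ 0) :
    aeval η f = algebraMap K M (f.eval c) * uf c h w f := by
  rw [taylor_ch c h hh η w hw f, Finset.sum_range_succ', uf, mul_add, mul_one, Finset.mul_sum,
    add_comm]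
  congr 1
  · rw [pow_zero, pow_zero, mul_one, mul_one, taylor_coeff_zero]
  · refine Finset.sum_congr rfl fun i _ => ?_
    rw [← mul_assoc, ← map_mul, mul_div_cancel₀ _ hf]

theorem val_sum_lt {V : ValuationSubring M} {ι : Type*} (t : Finset ι) (f : ι → M)
    (h : ∀ i ∈ t, V.valuation (f i) < 1) : V.valuation (∑ i ∈ t, f i) < 1 := by
  classical
  induction t using Finset.induction_on with
  | empty =>
    rw [Finset.sum_empty, map_zero]
    exact zero_lt_one
  | insert i t hi ih =>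
    rw [Finset.sum_insert hi]
    exact lt_of_le_of_lt (V.valuation.map_add _ _)
      (max_lt (h i (Finset.mem_insert_self _ _)) (ih fun j hj => h j (Finset.mem_insert_of_mem hj)))

theorem uf_mem (c h : K) (w : M) (f : K[X]) (A : Subalgebra k K)
    (hA : ∀ i, (taylor c f).coeff (i + 1) * h ^ (i + 1) / f.eval c ∈ A) :
    uf c h w f ∈ LY.lft w A := by
  unfold uf
  refine add_mem (one_mem _) (sum_mem fun i _ => mul_mem (LY.mem_lft w A (hA i))
    (pow_mem (LY.self_mem_lft w A) _))

theorem uf_val {W : ValuationSubring K} {W₁ : ValuationSubring M}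
    (hWW : ∀ x : K, algebraMap K M x ∈ W₁ ↔ x ∈ W) (c h : K) (w : M)
    (hw : W₁.valuation w < 1) (f : K[X])
    (hA : ∀ i, (taylor c f).coeff (i + 1) * h ^ (i + 1) / f.eval c ∈ W) :
    W₁.valuation (uf c h w f) = 1 := by
  unfold uf
  have h1 : W₁.valuation (∑ i ∈ Finset.range f.natDegree,
      algebraMap K M ((taylor c f).coeff (i + 1) * h ^ (i + 1) / f.eval c) * w ^ (i + 1)) < 1 := by
    refine val_sum_lt _ _ fun i _ => ?_
    rw [map_mul, map_pow]
    have h2 : W₁.valuation (algebraMap K M ((taylor c f).coeff (i + 1) * h ^ (i + 1) /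
        f.eval c)) ≤ 1 := (val_le_one hWW _).2 ((W.valuation_le_one_iff _).2 (hA i))
    exact mul_lt_one_of_nonneg_of_lt_one_right h2 zero_le (pow_lt_one₀ zero_le hw (by omega))
  exact (W₁.valuation.map_one_add_of_lt h1)

theorem ratio_mem (W : ValuationSubring K) (c h : K) (hh1 : W.valuation h < 1) (f : K[X])
    (h0 : f.eval c ≠ 0)
    (hf : ∀ i, W.valuation ((taylor c f).coeff i * h) < W.valuation (f.eval c)) (i : ℕ) :
    (taylor c f).coeff (i + 1) * h ^ (i + 1) / f.eval c ∈ W := by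
  rw [← W.valuation_le_one_iff, map_div₀]
  have h1 : W.valuation (f.eval c) ≠ 0 := (W.valuation.ne_zero_iff).2 h0
  refine (div_le_one₀ (zero_lt_iff.2 h1)).2 ?_
  refine le_trans ?_ (hf (i + 1)).le
  rw [map_mul, map_mul, map_pow, pow_succ']
  refine mul_le_mul_right ?_ _
  exact mul_le_of_le_one_right zero_le (pow_le_one₀ zero_le hh1.le)

theorem rel_t (W : ValuationSubring K) (W₁ : ValuationSubring M)
    (hWW : ∀ x : K, algebraMap K M x ∈ W₁ ↔ x ∈ W) (hW : ∀ c : k, algebraMap k K c ∈ W) (η : M)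
    (hη : W₁.valuation η ≤ 1) (hη0 : Transcendental K η)
    (hgen : IntermediateField.adjoin K {η} = ⊤)
    (hd : ∀ h : M, h ≠ 0 → ∃ c : K, W₁.valuation (η - algebraMap K M c) < W₁.valuation h)
    (h0 : LY.RelS k W) : LY.RelS k W₁ := by
  classical
  obtain ⟨B₀, hB₀⟩ := h0
  refine rel_weak W₁ (insert η (B₀.image (algebraMap K M))) (fun F hF => ?_)
  have hrep : ∀ x ∈ F, ∃ f g : K[X], aeval η f ≠ 0 ∧ aeval η g ≠ 0 ∧
      x * aeval η g = aeval η f := by
    intro x hx
    have h1 : x ∈ IntermediateField.adjoin K {η} := by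
      rw [hgen]
      exact IntermediateField.mem_top
    rw [IntermediateField.mem_adjoin_simple_iff] at h1
    obtain ⟨r, s, h1⟩ := h1
    have hs : aeval η s ≠ 0 := by
      intro h2
      rw [h2, div_zero] at h1
      exact hF x hx h1
    have h2 : x * aeval η s = aeval η r := by
      rw [h1, div_mul_cancel₀ _ hs]
    refine ⟨r, s, ?_, hs, h2⟩
    rw [← h2]
    exact mul_ne_zero (hF x hx) hs
  choose! f g hf hg hfg using hrep
  obtain ⟨S, hS⟩ : ∃ S : Finset K[X], S = F.image f ∪ F.image g := ⟨_, rfl⟩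
  have hfS : ∀ x ∈ F, f x ∈ S := fun x hx => by
    rw [hS]
    exact Finset.mem_union_left _ (Finset.mem_image_of_mem _ hx)
  have hgS : ∀ x ∈ F, g x ∈ S := fun x hx => by
    rw [hS]
    exact Finset.mem_union_right _ (Finset.mem_image_of_mem _ hx)
  have hSη : ∀ b ∈ S, aeval η b ≠ 0 := by
    intro b hb
    rw [hS, Finset.mem_union, Finset.mem_image, Finset.mem_image] at hb
    rcases hb with ⟨x, hx, rfl⟩ | ⟨x, hx, rfl⟩
    · exact hf x hx
    · exact hg x hx
  have hηK : ∀ c : K, η ≠ algebraMap K M c := by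
    rintro c rfl
    exact hη0 (isAlgebraic_algebraMap c)
  obtain ⟨c, h, hcW, hh0, hh1, hch, hS0, hSv, hSt⟩ := exists_ch W W₁ hWW η hη hηK hd S S
    (Finset.Subset.refl S) hSη
  obtain ⟨F₀, hF₀⟩ : ∃ F₀ : Finset K, F₀ = (({c, h} ∪ S.image (fun b => b.eval c)) ∪
      ((S.biUnion fun b => (Finset.range (b.natDegree + 1)).image fun i =>
        (taylor c b).coeff (i + 1) * h ^ (i + 1) / b.eval c) ∪
        F.image (fun x => (f x).eval c / (g x).eval c))).filter (fun x => x ≠ 0) := ⟨_, rfl⟩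
  obtain ⟨A, hA, n, s, hAfg, hAfr, hAreg, hAdim, hAs, hAF, hAM, H, hH, hH0, hHM, hHA⟩ :=
    hB₀ F₀ (fun x hx => by
      rw [hF₀] at hx
      exact (Finset.mem_filter.1 hx).2)
  have hAmem : ∀ x ∈ W, x ∈ (({c, h} ∪ S.image (fun b => b.eval c)) ∪
      ((S.biUnion fun b => (Finset.range (b.natDegree + 1)).image fun i =>
        (taylor c b).coeff (i + 1) * h ^ (i + 1) / b.eval c) ∪
        F.image (fun x => (f x).eval c / (g x).eval c)) : Finset K) → x ∈ A := by
    intro x hxW hx
    by_cases hx0 : x = 0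
    · rw [hx0]
      exact zero_mem _
    · refine hAF x ?_ hxW
      rw [hF₀]
      exact Finset.mem_filter.2 ⟨hx, hx0⟩
  have hhW : h ∈ W := (W.valuation_le_one_iff _).1 hh1.le
  have hcA : c ∈ A := hAmem c hcW (by simp)
  have hhA : h ∈ A := hAmem h hhW (by simp)
  have hrW : ∀ b ∈ S, ∀ i, (taylor c b).coeff (i + 1) * h ^ (i + 1) / b.eval c ∈ W :=
    fun b hb i => ratio_mem W c h hh1 b (hS0 b hb) (fun i => hSt b hb b hb i) i
  have hrA : ∀ b ∈ S, ∀ i, (taylor c b).coeff (i + 1) * h ^ (i + 1) / b.eval c ∈ A := by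
    intro b hb i
    by_cases hi : i < b.natDegree + 1
    · refine hAmem _ (hrW b hb i) ?_
      refine Finset.mem_union_right _ (Finset.mem_union_left _ (Finset.mem_biUnion.2
        ⟨b, hb, Finset.mem_image.2 ⟨i, Finset.mem_range.2 hi, rfl⟩⟩))
    · have h1 : (taylor c b).coeff (i + 1) = 0 := by
        apply coeff_eq_zero_of_natDegree_lt
        rw [natDegree_taylor]
        omega
      rw [h1, zero_mul, zero_div]
      exact zero_mem _
  -- the new element
  have hh0' : algebraMap K M h ≠ 0 := by simpa using hh0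
  obtain ⟨w, hwd⟩ : ∃ w : M, w = (η - algebraMap K M c) / algebraMap K M h := ⟨_, rfl⟩
  have hηw : η = algebraMap K M c + algebraMap K M h * w := by
    rw [hwd, mul_div_cancel₀ _ hh0']
    ring
  have hw : W₁.valuation w < 1 := by
    rw [hwd, map_div₀]
    exact (div_lt_one₀ (zero_lt_iff.2 ((W₁.valuation.ne_zero_iff).2 hh0'))).2 hch
  have hw0 : Transcendental K w := by
    intro h1
    apply hη0
    rw [hηw]
    exact (isAlgebraic_algebraMap c).add ((isAlgebraic_algebraMap h).mul h1)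
  have hgenw : IntermediateField.adjoin K {w} = ⊤ := by
    rw [eq_top_iff, ← hgen, IntermediateField.adjoin_simple_le_iff, hηw]
    exact add_mem (IntermediateField.algebraMap_mem _ _)
      (mul_mem (IntermediateField.algebraMap_mem _ _) (IntermediateField.mem_adjoin_simple_self K w))
  obtain ⟨hA₁, s', hs1, hs2, hfg', hfr', hreg', hdim', hspan'⟩ := chart_t W W₁ hWW A hA hAfg hAfr s
    hAdim hAs w hw hw0 hgenw
  have hs'0 : ∀ i, ((s' i : LY.lft w A) : M) ≠ 0 := fun i h1 =>
    LY.par_ne_zero' W₁ (LY.lft w A) hA₁ hfg' s' hspan' hdim' i (Subtype.ext h1)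
  have hs0 : ∀ i, ((s i : A) : K) ≠ 0 := fun i h1 =>
    LY.par_ne_zero' W A hA hAfg s hAs hAdim i (Subtype.ext h1)
  have hmon : ∀ x : K, LY.MonS W A hA s x → LY.MonS W₁ (LY.lft w A) hA₁ s' (algebraMap K M x) :=
    fun x hx => mons_snoc s' (mons_lft hWW A hA w hA₁ s (fun i => s' i.castSucc) hs1 hx)
  have hub : ∀ b ∈ S, aeval η b = algebraMap K M (b.eval c) * uf c h w b := fun b hb =>
    aeval_uf c h hh0 η w hηw b (hS0 b hb)
  have hum : ∀ b ∈ S, uf c h w b ∈ LY.lft w A := fun b hb => uf_mem c h w b A (hrA b hb)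
  have huv : ∀ b ∈ S, W₁.valuation (uf c h w b) = 1 := fun b hb =>
    uf_val hWW c h w hw b (hrW b hb)
  have hbM : ∀ b ∈ S, LY.MonS W₁ (LY.lft w A) hA₁ s' (aeval η b) := by
    intro b hb
    rw [hub b hb]
    refine LY.MonS.mul hs'0 (hmon _ (hAM _ ?_)) (mons_unit hA₁ s' (hum b hb) (huv b hb))
    rw [hF₀]
    exact Finset.mem_filter.2 ⟨Finset.mem_union_left _ (Finset.mem_union_right _
      (Finset.mem_image_of_mem _ hb)), hS0 b hb⟩
  obtain ⟨e, hdom1, hdom2⟩ := dom B₀ A H hH hHA c h hcA hhA hh0 η w hηw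
  refine ⟨LY.lft w A, hA₁, n + 1, s', hfg', hfr', hreg', hdim', hspan', ?_, ?_,
    algebraMap K M (H ^ e * h), hdom1, ?_, ?_, hdom2⟩
  · intro x hx hxW
    have hgx := hg x hx
    have hfx := hf x hx
    refine ⟨algebraMap K M ((f x).eval c / (g x).eval c) * uf c h w (f x), ?_, uf c h w (g x),
      hum _ (hgS x hx), huv _ (hgS x hx), ?_⟩
    · refine mul_mem (LY.mem_lft w A (hAmem _ ?_ ?_)) (hum _ (hfS x hx))
      · rw [← W.valuation_le_one_iff, ← val_le_one hWW, map_div₀, map_div₀, hSv _ (hfS x hx),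
          hSv _ (hgS x hx), ← map_div₀, ← hfg x hx, mul_div_cancel_right₀ _ hgx]
        exact (W₁.valuation_le_one_iff _).2 hxW
      · exact Finset.mem_union_right _ (Finset.mem_union_right _ (Finset.mem_image_of_mem _ hx))
    · have h1 := hub _ (hgS x hx)
      have h2 := hub _ (hfS x hx)
      have h3 : algebraMap K M ((g x).eval c) ≠ 0 := by
        simpa using hS0 _ (hgS x hx)
      have h4 : x * (algebraMap K M ((g x).eval c) * uf c h w (g x)) =
          algebraMap K M ((f x).eval c) * uf c h w (f x) := by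
        rw [← h1, ← h2, hfg x hx]
      rw [map_div₀]
      field_simp
      rw [← h4]
      ring
  · intro x hx
    have h1 : x = aeval η (f x) * (aeval η (g x))⁻¹ := by
      rw [← hfg x hx, mul_inv_cancel_right₀ (hg x hx)]
    rw [h1]
    exact LY.MonS.mul hs'0 (hbM _ (hfS x hx)) (LY.MonS.inv hs'0 (hbM _ (hgS x hx)))
  · rw [map_mul, map_pow]
    exact mul_ne_zero (pow_ne_zero _ (by simpa using hH0)) hh0'
  · refine hmon _ (LY.MonS.mul hs0 (LY.MonS.pow hs0 hHM e) (hAM h ?_))
    rw [hF₀]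
    exact Finset.mem_filter.2 ⟨by simp, hh0⟩

end LYD
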