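import Pool.Agent.LYD.ChartA
import Pool.Agent.LYD.RelT

/-! Project LYD: adjoining a separable element (assembly, helper90). -/

set_option autoImplicit false

open Polynomial

namespace LYD

universe u

variable {k K M : Type u} [Field k] [Field K] [Field M] [Algebra k K] [Algebra k M] [Algebra K M]
  [IsScalarTower k K M]

/-- the polynomial of `w`, `η = c + h w` -/
noncomputable def gw (c h : K) (m : K[X]) : K[X] :=
  C ((m.derivative.eval c * h)⁻¹) * (taylor c m).comp (C h * X)

theorem gw_coeff (c h : K) (m : K[X]) (i : ℕ) :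
    (gw c h m).coeff i = (m.derivative.eval c * h)⁻¹ * ((taylor c m).coeff i * h ^ i) := by
  rw [gw, coeff_C_mul, comp_C_mul_X_coeff]

theorem gw_aeval (c h : K) (m : K[X]) (η w : M)
    (hw : η = algebraMap K M c + algebraMap K M h * w) (hm : aeval η m = 0) :
    aeval w (gw c h m) = 0 := by
  rw [gw, map_mul, taylor_apply, aeval_comp, aeval_comp]
  have h1 : (aeval ((aeval w) (C h * X) : M)) (X + C c : K[X]) = η := by
    rw [map_add, aeval_X, aeval_C, map_mul, aeval_X, aeval_C, hw, add_comm]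
  rw [h1, hm, mul_zero]

theorem rel_a (W : ValuationSubring K) (W₁ : ValuationSubring M)
    (hWW : ∀ x : K, algebraMap K M x ∈ W₁ ↔ x ∈ W) (hW : ∀ c : k, algebraMap k K c ∈ W) (η : M)
    (hη : W₁.valuation η ≤ 1) (hsep : IsSeparable K η) (hη0 : ∀ c : K, η ≠ algebraMap K M c)
    (hgen : IntermediateField.adjoin K {η} = ⊤)
    (hd : ∀ h : M, h ≠ 0 → ∃ c : K, W₁.valuation (η - algebraMap K M c) < W₁.valuation h)
    (h0 : LY.RelS k W) : LY.RelS k W₁ := by
  classical
  obtain ⟨B₀, hB₀⟩ := h0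
  refine rel_weak W₁ (insert η (B₀.image (algebraMap K M))) (fun F hF => ?_)
  have hrep : ∀ x ∈ F, ∃ f g : K[X], aeval η f ≠ 0 ∧ aeval η g ≠ 0 ∧
      x * aeval η g = aeval η f := by
    intro x hx
    have h1 : x ∈ IntermediateField.adjoin K {η} := by
      rw [hgen]
      exact IntermediateField.mem_top
    rw [IntermediateField.mem_adjoin_simple_iff] at h1
    obtain ⟨r, s, h1⟩ := h1
    have hs : aeval η s ≠ 0 := by
      intro h2
      rw [h2, div_zero] at h1
      exact hF x hx h1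
    have h2 : x * aeval η s = aeval η r := by
      rw [h1, div_mul_cancel₀ _ hs]
    refine ⟨r, s, ?_, hs, h2⟩
    rw [← h2]
    exact mul_ne_zero (hF x hx) hs
  choose! f g hf hg hfg using hrep
  obtain ⟨m, hm⟩ : ∃ m : K[X], m = minpoly K η := ⟨_, rfl⟩
  have hm0 : aeval η m = 0 := by
    rw [hm]
    exact minpoly.aeval K η
  have hm1 : aeval η m.derivative ≠ 0 := by
    rw [hm]
    have h1 : (minpoly K η).Separable := hsep
    exact h1.aeval_derivative_ne_zero (minpoly.aeval K η)
  obtain ⟨S, hS⟩ : ∃ S : Finset K[X], S = insert m.derivative (F.image f ∪ F.image g) := ⟨_, rfl⟩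
  have hmS : m.derivative ∈ S := by
    rw [hS]
    exact Finset.mem_insert_self _ _
  have hfS : ∀ x ∈ F, f x ∈ S := fun x hx => by
    rw [hS]
    exact Finset.mem_insert_of_mem (Finset.mem_union_left _ (Finset.mem_image_of_mem _ hx))
  have hgS : ∀ x ∈ F, g x ∈ S := fun x hx => by
    rw [hS]
    exact Finset.mem_insert_of_mem (Finset.mem_union_right _ (Finset.mem_image_of_mem _ hx))
  have hSη : ∀ b ∈ S, aeval η b ≠ 0 := by
    intro b hb
    rw [hS, Finset.mem_insert, Finset.mem_union, Finset.mem_image, Finset.mem_image] at hb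
    rcases hb with rfl | ⟨x, hx, rfl⟩ | ⟨x, hx, rfl⟩
    · exact hm1
    · exact hf x hx
    · exact hg x hx
  obtain ⟨c, h, hcW, hh0, hh1, hch, hS0, hSv, hSt'⟩ := exists_ch W W₁ hWW η hη hη0 hd S
    (insert m S) (Finset.subset_insert _ _) hSη
  have hSt : ∀ b ∈ S, ∀ f ∈ S, ∀ i,
      W.valuation ((taylor c f).coeff i * h) < W.valuation (b.eval c) :=
    fun b hb f hf => hSt' b hb f (Finset.mem_insert_of_mem hf)
  have hd0 : m.derivative.eval c ≠ 0 := hS0 _ hmS
  have hdh : m.derivative.eval c * h ≠ 0 := mul_ne_zero hd0 hh0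
  obtain ⟨G, hG⟩ : ∃ G : K[X], G = gw c h m := ⟨_, rfl⟩
  have hGi : ∀ i, G.coeff (i + 1) ∈ W := by
    intro i
    rcases i with _ | i
    · rw [hG, gw_coeff, zero_add, taylor_coeff_one, pow_one, inv_mul_cancel₀ hdh]
      exact one_mem _
    · rw [hG, gw_coeff, ← W.valuation_le_one_iff]
      have h1 := (hSt' _ hmS m (Finset.mem_insert_self _ _) (i + 1 + 1)).le
      have h2 : (m.derivative.eval c * h)⁻¹ * ((taylor c m).coeff (i + 1 + 1) * h ^ (i + 1 + 1)) =
          ((taylor c m).coeff (i + 1 + 1) * h) / m.derivative.eval c * h ^ i := by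
        field_simp
        ring
      rw [h2, map_mul, map_div₀, map_pow]
      refine mul_le_one' ?_ (pow_le_one₀ zero_le hh1.le)
      exact (div_le_one₀ (zero_lt_iff.2 ((W.valuation.ne_zero_iff).2 hd0))).2 h1
  -- the new element
  have hh0' : algebraMap K M h ≠ 0 := by simpa using hh0
  obtain ⟨w, hwd⟩ : ∃ w : M, w = (η - algebraMap K M c) / algebraMap K M h := ⟨_, rfl⟩
  have hηw : η = algebraMap K M c + algebraMap K M h * w := by
    rw [hwd, mul_div_cancel₀ _ hh0']
    ring
  have hw : W₁.valuation w < 1 := by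
    rw [hwd, map_div₀]
    exact (div_lt_one₀ (zero_lt_iff.2 ((W₁.valuation.ne_zero_iff).2 hh0'))).2 hch
  have hgenw : IntermediateField.adjoin K {w} = ⊤ := by
    rw [eq_top_iff, ← hgen, IntermediateField.adjoin_simple_le_iff, hηw]
    exact add_mem (IntermediateField.algebraMap_mem _ _)
      (mul_mem (IntermediateField.algebraMap_mem _ _) (IntermediateField.mem_adjoin_simple_self K w))
  have hGw : aeval w G = 0 := by
    rw [hG]
    exact gw_aeval c h m η w hηw hm0
  have hG0 : W.valuation (G.coeff 0) < 1 := by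
    rw [← val_lt_one hWW]
    have h1 := hGw
    rw [aeval_eq_sum_range, Finset.sum_range_succ'] at h1
    have h2 : algebraMap K M (G.coeff 0) = -∑ i ∈ Finset.range G.natDegree,
        G.coeff (i + 1) • w ^ (i + 1) := by
      rw [eq_neg_iff_add_eq_zero, add_comm, ← h1, pow_zero, Algebra.smul_def, mul_one]
    rw [h2, Valuation.map_neg]
    refine val_sum_lt _ _ fun i _ => ?_
    rw [Algebra.smul_def, map_mul, map_pow]
    have h3 : W₁.valuation (algebraMap K M (G.coeff (i + 1))) ≤ 1 :=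
      (val_le_one hWW _).2 ((W.valuation_le_one_iff _).2 (hGi i))
    exact mul_lt_one_of_nonneg_of_lt_one_right h3 zero_le (pow_lt_one₀ zero_le hw (by omega))
  have hG1 : W.valuation (G.coeff 1) = 1 := by
    rw [hG, gw_coeff, taylor_coeff_one, pow_one, inv_mul_cancel₀ hdh, map_one]
  have hGW : ∀ i, G.coeff i ∈ W := by
    intro i
    rcases i with _ | i
    · exact (W.valuation_le_one_iff _).1 hG0.le
    · exact hGi i
  obtain ⟨F₁, hF₁⟩ : ∃ F₁ : Finset K, F₁ = ({c, h} ∪ S.image (fun b => b.eval c)) ∪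
      (((S.biUnion fun b => (Finset.range (b.natDegree + 1)).image fun i =>
        (taylor c b).coeff (i + 1) * h ^ (i + 1) / b.eval c) ∪
        F.image (fun x => (f x).eval c / (g x).eval c)) ∪
          (Finset.range (G.natDegree + 1)).image G.coeff) := ⟨_, rfl⟩
  obtain ⟨A, hA, n, s, hAfg, hAfr, hAreg, hAdim, hAs, hAF, hAM, H, hH, hH0, hHM, hHA⟩ :=
    hB₀ (F₁.filter fun x => x ≠ 0) (fun x hx => (Finset.mem_filter.1 hx).2)
  have hAmem : ∀ x ∈ W, x ∈ F₁ → x ∈ A := by
    intro x hxW hx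
    by_cases hx0 : x = 0
    · rw [hx0]
      exact zero_mem _
    · exact hAF x (Finset.mem_filter.2 ⟨hx, hx0⟩) hxW
  have hhW : h ∈ W := (W.valuation_le_one_iff _).1 hh1.le
  have hcA : c ∈ A := hAmem c hcW (by
    rw [hF₁]
    exact Finset.mem_union_left _ (Finset.mem_union_left _ (by simp)))
  have hhF₁ : h ∈ F₁ := by
    rw [hF₁]
    exact Finset.mem_union_left _ (Finset.mem_union_left _ (by simp))
  have hhA : h ∈ A := hAmem h hhW hhF₁
  have hGA : ∀ i, G.coeff i ∈ A := by
    intro i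
    by_cases hi : i < G.natDegree + 1
    · refine hAmem _ (hGW i) ?_
      rw [hF₁]
      exact Finset.mem_union_right _ (Finset.mem_union_right _
        (Finset.mem_image_of_mem _ (Finset.mem_range.2 hi)))
    · rw [coeff_eq_zero_of_natDegree_lt (by omega)]
      exact zero_mem _
  have hrW : ∀ b ∈ S, ∀ i, (taylor c b).coeff (i + 1) * h ^ (i + 1) / b.eval c ∈ W :=
    fun b hb i => ratio_mem W c h hh1 b (hS0 b hb) (fun i => hSt b hb b hb i) i
  have hrA : ∀ b ∈ S, ∀ i, (taylor c b).coeff (i + 1) * h ^ (i + 1) / b.eval c ∈ A := by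
    intro b hb i
    by_cases hi : i < b.natDegree + 1
    · refine hAmem _ (hrW b hb i) ?_
      rw [hF₁]
      refine Finset.mem_union_right _ (Finset.mem_union_left _ (Finset.mem_union_left _
        (Finset.mem_biUnion.2 ⟨b, hb, Finset.mem_image.2 ⟨i, Finset.mem_range.2 hi, rfl⟩⟩)))
    · have h1 : (taylor c b).coeff (i + 1) = 0 := by
        apply coeff_eq_zero_of_natDegree_lt
        rw [natDegree_taylor]
        omega
      rw [h1, zero_mul, zero_div]
      exact zero_mem _
  obtain ⟨hA₁, s', hs1, hfg', hfr', hreg', hdim', hspan'⟩ := chart_a W W₁ hWW A hA hAfg hAfr s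
    hAdim hAs w hw G hGA hG0 hG1 hGw hgenw
  have hs'0 : ∀ i, ((s' i : LY.lft w A) : M) ≠ 0 := fun i h1 =>
    LY.par_ne_zero' W₁ (LY.lft w A) hA₁ hfg' s' hspan' hdim' i (Subtype.ext h1)
  have hs0 : ∀ i, ((s i : A) : K) ≠ 0 := fun i h1 =>
    LY.par_ne_zero' W A hA hAfg s hAs hAdim i (Subtype.ext h1)
  have hmon : ∀ x : K, LY.MonS W A hA s x → LY.MonS W₁ (LY.lft w A) hA₁ s' (algebraMap K M x) :=
    fun x hx => mons_lft hWW A hA w hA₁ s s' hs1 hx
  have hub : ∀ b ∈ S, aeval η b = algebraMap K M (b.eval c) * uf c h w b := fun b hb =>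
    aeval_uf c h hh0 η w hηw b (hS0 b hb)
  have hum : ∀ b ∈ S, uf c h w b ∈ LY.lft w A := fun b hb => uf_mem c h w b A (hrA b hb)
  have huv : ∀ b ∈ S, W₁.valuation (uf c h w b) = 1 := fun b hb =>
    uf_val hWW c h w hw b (hrW b hb)
  have hbM : ∀ b ∈ S, LY.MonS W₁ (LY.lft w A) hA₁ s' (aeval η b) := by
    intro b hb
    rw [hub b hb]
    refine LY.MonS.mul hs'0 (hmon _ (hAM _ ?_)) (mons_unit hA₁ s' (hum b hb) (huv b hb))
    refine Finset.mem_filter.2 ⟨?_, hS0 b hb⟩
    rw [hF₁]
    exact Finset.mem_union_left _ (Finset.mem_union_right _ (Finset.mem_image_of_mem _ hb))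
  obtain ⟨e, hdom1, hdom2⟩ := dom B₀ A H hH hHA c h hcA hhA hh0 η w hηw
  refine ⟨LY.lft w A, hA₁, n, s', hfg', hfr', hreg', hdim', hspan', ?_, ?_,
    algebraMap K M (H ^ e * h), hdom1, ?_, ?_, hdom2⟩
  · intro x hx hxW
    have hgx := hg x hx
    have hfx := hf x hx
    refine ⟨algebraMap K M ((f x).eval c / (g x).eval c) * uf c h w (f x), ?_, uf c h w (g x),
      hum _ (hgS x hx), huv _ (hgS x hx), ?_⟩
    · refine mul_mem (LY.mem_lft w A (hAmem _ ?_ ?_)) (hum _ (hfS x hx))
      · rw [← W.valuation_le_one_iff, ← val_le_one hWW, map_div₀, map_div₀, hSv _ (hfS x hx),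
          hSv _ (hgS x hx), ← map_div₀, ← hfg x hx, mul_div_cancel_right₀ _ hgx]
        exact (W₁.valuation_le_one_iff _).2 hxW
      · rw [hF₁]
        exact Finset.mem_union_right _ (Finset.mem_union_left _ (Finset.mem_union_right _
          (Finset.mem_image_of_mem _ hx)))
    · have h1 := hub _ (hgS x hx)
      have h2 := hub _ (hfS x hx)
      have h3 : algebraMap K M ((g x).eval c) ≠ 0 := by
        simpa using hS0 _ (hgS x hx)
      have h4 : x * (algebraMap K M ((g x).eval c) * uf c h w (g x)) =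
          algebraMap K M ((f x).eval c) * uf c h w (f x) := by
        rw [← h1, ← h2, hfg x hx]
      rw [map_div₀]
      field_simp
      rw [← h4]
      ring
  · intro x hx
    have h1 : x = aeval η (f x) * (aeval η (g x))⁻¹ := by
      rw [← hfg x hx, mul_inv_cancel_right₀ (hg x hx)]
    rw [h1]
    exact LY.MonS.mul hs'0 (hbM _ (hfS x hx)) (LY.MonS.inv hs'0 (hbM _ (hgS x hx)))
  · rw [map_mul, map_pow]
    exact mul_ne_zero (pow_ne_zero _ (by simpa using hH0)) hh0'
  · exact hmon _ (LY.MonS.mul hs0 (LY.MonS.pow hs0 hHM e) (hAM h (Finset.mem_filter.2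
      ⟨hhF₁, hh0⟩)))

end LYD
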