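import Pool.Agent.LYD.ChartA
import Pool.Agent.LYD.Weak
import Pool.Agent.LYD.Dom

/-! Project LYD: the trivial extension `M = K` (helper21). -/

set_option autoImplicit false

open Polynomial

namespace LYD

universe u

variable {k K M : Type u} [Field k] [Field K] [Field M] [Algebra k K] [Algebra k M] [Algebra K M]
  [IsScalarTower k K M]

/-- powers of a monomial times a unit -/
theorem RelTriv_pow {W : ValuationSubring K} {A : Subalgebra k K} {h : ∀ a ∈ A, a ∈ W} {n : ℕ}
    {s : Fin n → A} {x : K} (hx : LY.MonS W A h s x) (e : ℕ) : LY.MonS W A h s (x ^ e) := by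
  obtain ⟨a, N, D, h1, h2, h3⟩ := hx
  refine ⟨fun i => a i * e, N ^ e, D ^ e, ?_, ?_, ?_⟩
  · exact fun h4 => h1 ((inferInstance : (LU.center W A h).IsPrime).mem_of_pow_mem e h4)
  · exact fun h4 => h2 ((inferInstance : (LU.center W A h).IsPrime).mem_of_pow_mem e h4)
  · have h4 : (∏ i, ((s i : A) : K) ^ (a i * (e : ℤ))) = (∏ i, ((s i : A) : K) ^ a i) ^ e := by
      rw [← Finset.prod_pow]
      exact Finset.prod_congr rfl fun i _ => by rw [zpow_mul, zpow_natCast]
    rw [h4]
    have h5 : x ^ e * ((D ^ e : A) : K) = (x * (D : K)) ^ e := by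
      rw [mul_pow]
      rfl
    have h6 : (((N ^ e : A) : K)) = (N : K) ^ e := rfl
    rw [h5, h3, h6, mul_pow]

/-- the trivial case `M = K` (chart `A[0]`, `chart_a` with `w = 0`, `g = X`; `dom` with `c = 0`,
`h = 1`, `η = 0`; `mons_lft`) -/
theorem rel_triv (W : ValuationSubring K) (W₁ : ValuationSubring M)
    (hWW : ∀ x : K, algebraMap K M x ∈ W₁ ↔ x ∈ W) (hsurj : Function.Surjective (algebraMap K M))
    (h0 : LY.RelS k W) : LY.RelS k W₁ := by
  classical
  obtain ⟨B, hB⟩ := h0
  refine rel_weak W₁ (insert 0 (B.image (algebraMap K M))) fun F hF => ?_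
  obtain ⟨A, hA, n, s, hfg, hfr, hreg, hdim, hs, hFA, hFm, H, hH, hH0, hHm, hHA⟩ :=
    hB (F.image (Function.surjInv hsurj)) (fun x hx => by
      obtain ⟨y, hy, rfl⟩ := Finset.mem_image.1 hx
      intro h1
      refine hF y hy ?_
      rw [← Function.surjInv_eq hsurj y, h1, map_zero])
  have hgen : IntermediateField.adjoin K {(0 : M)} = ⊤ := by
    rw [eq_top_iff]
    intro y _
    obtain ⟨x, rfl⟩ := hsurj y
    exact IntermediateField.algebraMap_mem _ x
  have hX : ∀ i, (X : K[X]).coeff i ∈ A := by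
    intro i
    rw [coeff_X]
    split_ifs
    · exact one_mem A
    · exact zero_mem A
  obtain ⟨hA₁, s', hs', hfg₁, hfr₁, hreg₁, hdim₁, hspan₁⟩ := chart_a W W₁ hWW A hA hfg hfr s hdim hs
    (0 : M) (by rw [map_zero]; exact zero_lt_one) X hX
    (by rw [coeff_X_zero, map_zero]; exact zero_lt_one) (by rw [coeff_X_one, map_one])
    (by rw [aeval_X]) hgen
  obtain ⟨e, he, hedom⟩ := dom (M := M) B A H hH hHA 0 1 (zero_mem A) (one_mem A) one_ne_zero 0 0
    (by rw [map_zero, map_one, mul_zero, add_zero])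
  refine ⟨LY.lft 0 A, hA₁, n, s', hfg₁, hfr₁, hreg₁, hdim₁, hspan₁, ?_, ?_, ?_⟩
  · intro x hx hxW
    have h1 : algebraMap K M (Function.surjInv hsurj x) = x := Function.surjInv_eq hsurj x
    refine ⟨x, ?_, 1, one_mem _, map_one _, mul_one x⟩
    rw [← h1]
    refine LY.mem_lft 0 A (hFA _ (Finset.mem_image_of_mem _ hx) ?_)
    rw [← hWW, h1]
    exact hxW
  · intro x hx
    have h1 : algebraMap K M (Function.surjInv hsurj x) = x := Function.surjInv_eq hsurj x
    rw [← h1]
    exact mons_lft hWW A hA 0 hA₁ s s' hs' (hFm _ (Finset.mem_image_of_mem _ hx))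
  · refine ⟨algebraMap K M (H ^ e * 1), ?_, ?_, ?_, ?_⟩
    · convert he using 3
    · rw [mul_one]
      exact (_root_.map_ne_zero (algebraMap K M)).2 (pow_ne_zero e hH0)
    · rw [mul_one]
      exact mons_lft hWW A hA 0 hA₁ s s' hs' (RelTriv_pow hHm e)
    · intro y hy
      obtain ⟨j, hj⟩ := hedom y hy
      exact ⟨j, by convert hj using 3⟩

end LYD
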