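import Pool.Agent.LYD.RelT
import Pool.Agent.LYD.RelA
import Pool.Agent.LYD.RelTriv

/-! Project LYD: dense separable extensions. -/

set_option autoImplicit false

namespace LYD

universe u

variable {k K M : Type u} [Field k] [Field K] [Field M] [Algebra k K] [Algebra k M] [Algebra K M]
  [IsScalarTower k K M]

/-- separability of the induced intermediate extension data: density goes down to an intermediate
field. -/
theorem Tower_dense (W₁ : ValuationSubring M) (E : Type u) [Field E] [Algebra K E] [Algebra E M]
    [IsScalarTower K E M]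
    (hd : ∀ x h : M, h ≠ 0 → ∃ c : K, W₁.valuation (x - algebraMap K M c) < W₁.valuation h)
    (x h : E) (hh : h ≠ 0) :
    ∃ c : K, (W₁.comap (algebraMap E M)).valuation (x - algebraMap K E c) <
      (W₁.comap (algebraMap E M)).valuation h := by
  obtain ⟨c, hc⟩ := hd (algebraMap E M x) (algebraMap E M h)
    (by simpa using hh)
  refine ⟨c, ?_⟩
  have hWE : ∀ x : E, algebraMap E M x ∈ W₁ ↔ x ∈ W₁.comap (algebraMap E M) := fun x =>
    ValuationSubring.mem_comap.symm
  rw [← val_lt hWE, map_sub, ← IsScalarTower.algebraMap_apply]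
  exact hc

theorem Tower_surj (c : K) (h : IntermediateField.adjoin K {algebraMap K M c} = ⊤) :
    Function.Surjective (algebraMap K M) := by
  intro x
  have h1 : IntermediateField.adjoin K {algebraMap K M c} = ⊥ := by
    rw [IntermediateField.adjoin_simple_eq_bot_iff]
    exact IntermediateField.algebraMap_mem _ c
  have h2 : x ∈ (⊥ : IntermediateField K M) := by
    rw [← h1, h]
    exact IntermediateField.mem_top
  exact IntermediateField.mem_bot.1 h2

theorem Tower_gen_div {η : M} {c : K} (hc : c ≠ 0) (h : IntermediateField.adjoin K {η} = ⊤) :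
    IntermediateField.adjoin K {η / algebraMap K M c} = ⊤ := by
  rw [eq_top_iff, ← h, IntermediateField.adjoin_simple_le_iff]
  have h1 : η / algebraMap K M c ∈ IntermediateField.adjoin K {η / algebraMap K M c} :=
    IntermediateField.mem_adjoin_simple_self K _
  have h2 := mul_mem h1 (IntermediateField.algebraMap_mem
    (IntermediateField.adjoin K {η / algebraMap K M c}) c)
  rwa [div_mul_cancel₀] at h2
  simpa using hc

theorem Tower_le_one (W : ValuationSubring K) (W₁ : ValuationSubring M)
    (hWW : ∀ x : K, algebraMap K M x ∈ W₁ ↔ x ∈ W) (hW : ∀ c : k, algebraMap k K c ∈ W) (η : M)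
    (hη1 : W₁.valuation η ≤ 1)
    (hη : Transcendental K η ∨ IsSeparable K η) (hgen : IntermediateField.adjoin K {η} = ⊤)
    (hd : ∀ x h : M, h ≠ 0 → ∃ c : K, W₁.valuation (x - algebraMap K M c) < W₁.valuation h)
    (h0 : LY.RelS k W) : LY.RelS k W₁ := by
  by_cases hη0 : ∃ c : K, η = algebraMap K M c
  · obtain ⟨c, rfl⟩ := hη0
    exact rel_triv W W₁ hWW (Tower_surj c hgen) h0
  · push Not at hη0
    rcases hη with hη | hη
    · exact rel_t W W₁ hWW hW η hη1 hη hgen (hd η) h0
    · exact rel_a W W₁ hWW hW η hη1 hη hη0 hgen (hd η) h0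

/-- Simple extensions. Proof: `η ∈ K`: `rel_triv`. Otherwise choose `c₀ ∈ K` with
`W₁(η - c₀) < W₁(η)` if `W₁(η) > 1` (so `W₁(c₀) = W₁(η)`) and replace `η` by `η / c₀`
(`K(η/c₀) = K(η)`, density for `η / c₀`: use `h c₀`), so `W₁(η) ≤ 1`; then `rel_t` or `rel_a`. -/
theorem rel_simple (W : ValuationSubring K) (W₁ : ValuationSubring M)
    (hWW : ∀ x : K, algebraMap K M x ∈ W₁ ↔ x ∈ W) (hW : ∀ c : k, algebraMap k K c ∈ W) (η : M)
    (hη : Transcendental K η ∨ IsSeparable K η) (hgen : IntermediateField.adjoin K {η} = ⊤)
    (hd : ∀ x h : M, h ≠ 0 → ∃ c : K, W₁.valuation (x - algebraMap K M c) < W₁.valuation h)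
    (h0 : LY.RelS k W) : LY.RelS k W₁ := by
  by_cases hη1 : W₁.valuation η ≤ 1
  · exact Tower_le_one W W₁ hWW hW η hη1 hη hgen hd h0
  · have hη0 : η ≠ 0 := by
      rintro rfl
      exact hη1 (by simp)
    obtain ⟨c, hc⟩ := hd η η hη0
    have hval : W₁.valuation (algebraMap K M c) = W₁.valuation η := by
      have h1 := W₁.valuation.map_sub_eq_of_lt_left hc
      rw [sub_sub_cancel] at h1
      exact h1
    have hcM : algebraMap K M c ≠ 0 := by
      intro h1
      rw [h1, map_zero] at hval
      exact hη0 ((W₁.valuation.zero_iff).1 hval.symm)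
    have hc0 : c ≠ 0 := by
      rintro rfl
      exact hcM (map_zero _)
    refine Tower_le_one W W₁ hWW hW (η / algebraMap K M c) ?_ ?_ (Tower_gen_div hc0 hgen) hd h0
    · rw [map_div₀, hval, div_self ((W₁.valuation.ne_zero_iff).2 hη0)]
    · rcases hη with hη | hη
      · refine Or.inl fun h1 => hη ?_
        have h2 := h1.mul (isAlgebraic_algebraMap (R := K) (A := M) c)
        rwa [div_mul_cancel₀ _ hcM] at h2
      · refine Or.inr ?_
        rw [div_eq_mul_inv, ← map_inv₀]
        exact Field.isSeparable_mul hη (isSeparable_algebraMap _)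

theorem Tower_ext (m : ℕ) : ∀ (K : Type u) [Field K] [Algebra k K] [Algebra K M]
    [IsScalarTower k K M] (W : ValuationSubring K) (W₁ : ValuationSubring M)
    (_ : ∀ x : K, algebraMap K M x ∈ W₁ ↔ x ∈ W) (_ : ∀ c : k, algebraMap k K c ∈ W)
    (_ : ∀ x h : M, h ≠ 0 → ∃ c : K, W₁.valuation (x - algebraMap K M c) < W₁.valuation h)
    (z : Fin m → M) (_ : AlgebraicIndependent K z)
    (_ : FiniteDimensional (IntermediateField.adjoin K (Set.range z)) M)
    (_ : Algebra.IsSeparable (IntermediateField.adjoin K (Set.range z)) M)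
    (_ : LY.RelS k W), LY.RelS k W₁ := by
  induction m with
  | zero =>
    intro K _ _ _ _ W W₁ hWW hW hd z hz hfin hsep h0
    rw [Set.range_eq_empty, IntermediateField.adjoin_empty] at hfin hsep
    have : FiniteDimensional K M := FiniteDimensional.trans K (⊥ : IntermediateField K M) M
    have : Algebra.IsSeparable K M := Algebra.IsSeparable.trans K (⊥ : IntermediateField K M) M
    obtain ⟨η, hη⟩ := Field.exists_primitive_element K M
    exact rel_simple W W₁ hWW hW η (Or.inr (Algebra.IsSeparable.isSeparable K η)) hη hd h0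
  | succ m ih =>
    intro K _ _ _ _ W W₁ hWW hW hd z hz hfin hsep h0
    have hE : IntermediateField.adjoin K (z '' {0}) = IntermediateField.adjoin K {z 0} := by
      rw [Set.image_singleton]
    have hWE : ∀ x : IntermediateField.adjoin K (z '' {0}),
        algebraMap (IntermediateField.adjoin K (z '' {0})) M x ∈ W₁ ↔
          x ∈ W₁.comap (algebraMap (IntermediateField.adjoin K (z '' {0})) M) := fun x =>
      ValuationSubring.mem_comap.symm
    have hr : (IntermediateField.adjoin (IntermediateField.adjoin K (z '' {0}))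
        (Set.range fun i : Fin m => z i.succ)).restrictScalars K =
          IntermediateField.adjoin K (Set.range z) := by
      rw [IntermediateField.adjoin_adjoin_left, Set.image_singleton]
      congr 1
      rw [Fin.range_fin_succ, Set.singleton_union]
      rfl
    have hfin' : FiniteDimensional (IntermediateField.adjoin (IntermediateField.adjoin K (z '' {0}))
        (Set.range fun i : Fin m => z i.succ)) M := by
      rw [← hr] at hfin
      exact hfin
    have hsep' : Algebra.IsSeparable
        (IntermediateField.adjoin (IntermediateField.adjoin K (z '' {0}))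
        (Set.range fun i : Fin m => z i.succ)) M := by
      rw [← hr] at hsep
      exact hsep
    have : IsScalarTower k (IntermediateField.adjoin K (z '' {0})) M :=
      IsScalarTower.of_algebraMap_eq fun c => rfl
    refine ih (IntermediateField.adjoin K (z '' {0}))
      (W₁.comap (algebraMap (IntermediateField.adjoin K (z '' {0})) M)) W₁ hWE ?_ ?_
      (fun i : Fin m => z i.succ) ?_ hfin' hsep' ?_
    · intro c
      rw [← hWE, ← IsScalarTower.algebraMap_apply, IsScalarTower.algebraMap_apply k K M, hWW]
      exact hW c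
    · intro x h hh
      obtain ⟨c, hc⟩ := hd x h hh
      refine ⟨algebraMap K _ c, ?_⟩
      rw [← IsScalarTower.algebraMap_apply]
      exact hc
    · rw [IntermediateField.algebraicIndependent_adjoin_iff]
      exact (hz.adjoin_of_disjoint (s := {0}) (t := {0}ᶜ) disjoint_compl_right).comp
        (fun i : Fin m => (⟨i.succ, by simp⟩ : ({0}ᶜ : Set (Fin (m + 1)))))
        (fun i j hij => by simpa using hij)
    · refine rel_simple (K := K) W _ ?_ hW
        (⟨z 0, IntermediateField.subset_adjoin K _ ⟨0, rfl, rfl⟩⟩ :
          IntermediateField.adjoin K (z '' {0})) ?_ ?_ (Tower_dense W₁ _ hd) h0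
      · intro x
        rw [← hWE, ← IsScalarTower.algebraMap_apply, hWW]
      · refine Or.inl ?_
        rw [← transcendental_algebraMap_iff (A := M)
          (algebraMap (IntermediateField.adjoin K (z '' {0})) M).injective]
        exact hz.transcendental 0
      · rw [← IntermediateField.lift_inj, IntermediateField.lift_adjoin_simple,
          IntermediateField.lift_top]
        exact hE.symm

/-- Dense separable extensions. Proof: induction on `m`. `m = 0`: `M/K` is finite separable, `M = K(η)`
(`Field.exists_primitive_element`), `rel_simple`. Step: `E = K(z 0)`,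
`W_E = W₁.comap (algebraMap E M)`, `rel_simple` for `E/K` (`η = z 0`; `K` is dense in `M`, hence in
`E`), and the induction hypothesis for `M/E` and `z' i = z (i + 1)` (algebraically independent over
`E`: `AlgebraicIndependent` and `Fin.cons`, e.g. `algebraicIndependent_of_finite'`,
`AlgebraicIndependent.option_iff`, `AlgebraicIndependent.adjoin_of_disjoint`;
`E(z') = K(z)` as subfields of `M`). -/
theorem rel_ext (W : ValuationSubring K) (W₁ : ValuationSubring M)
    (hWW : ∀ x : K, algebraMap K M x ∈ W₁ ↔ x ∈ W) (hW : ∀ c : k, algebraMap k K c ∈ W)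
    (hd : ∀ x h : M, h ≠ 0 → ∃ c : K, W₁.valuation (x - algebraMap K M c) < W₁.valuation h)
    (m : ℕ) (z : Fin m → M) (hz : AlgebraicIndependent K z)
    (hfin : FiniteDimensional (IntermediateField.adjoin K (Set.range z)) M)
    (hsep : Algebra.IsSeparable (IntermediateField.adjoin K (Set.range z)) M)
    (h0 : LY.RelS k W) : LY.RelS k W₁ := by
  exact Tower_ext m K W W₁ hWW hW hd z hz hfin hsep h0

end LYD
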